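import Pool.Agent.TH737.FE.Ex

/-!
# The example with `2 d - 1` preperiodic points, continued
-/

set_option autoImplicit false

namespace Pool.Agent.TH737.FE

open Finset Polynomial Pool.Agent.TH737.HEN

universe u

/-- all coefficients are integral -/
def Integ {K : Type*} [Field K] (V : AbsoluteValue K ℝ) (P : K[X]) : Prop :=
  ∀ j, V (P.coeff j) ≤ 1

section integ

variable {K : Type*} [Field K] {V : AbsoluteValue K ℝ}

lemma Integ.add (hV : IsNonarchimedean V) {P Q : K[X]} (hP : Integ V P) (hQ : Integ V Q) :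
    Integ V (P + Q) := fun j => by
  rw [coeff_add]
  exact (hV _ _).trans (max_le (hP j) (hQ j))

lemma Integ.sub (hV : IsNonarchimedean V) {P Q : K[X]} (hP : Integ V P) (hQ : Integ V Q) :
    Integ V (P - Q) := fun j => by
  rw [coeff_sub, sub_eq_add_neg]
  refine (hV _ _).trans (max_le (hP j) ?_)
  rw [V.map_neg]
  exact hQ j

lemma Integ.mul (hV : IsNonarchimedean V) {P Q : K[X]} (hP : Integ V P) (hQ : Integ V Q) :
    Integ V (P * Q) := fun j => by
  rw [coeff_mul]
  refine sum_le_of_nonarch V hV _ _ 1 zero_le_one fun x _ => ?_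
  rw [map_mul]
  exact mul_le_one₀ (hP _) (V.nonneg _) (hQ _)

lemma Integ.C {a : K} (ha : V a ≤ 1) : Integ V (C a) := fun j => by
  rw [coeff_C]
  split_ifs
  · exact ha
  · rw [map_zero]; exact zero_le_one

lemma Integ.X_pow (n : ℕ) : Integ V (X ^ n : K[X]) := fun j => by
  rw [coeff_X_pow]
  split_ifs
  · rw [map_one]
  · rw [map_zero]; exact zero_le_one

end integ

section ex

variable (k : Type u) [Field k]

/-- the example `(x - t) (x^(d-1) - 2) + x` -/
noncomputable def exF (d : ℕ) : (RatFunc k)[X] :=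
  (X - C RatFunc.X) * (X ^ (d - 1) - C 2) + X

lemma exF_monic (d : ℕ) (hd : 3 ≤ d) : (exF k d).Monic ∧ (exF k d).natDegree = d := by
  have h1 : (X - C RatFunc.X : (RatFunc k)[X]).Monic := monic_X_sub_C _
  have h2 : (X ^ (d - 1) - C 2 : (RatFunc k)[X]).Monic := monic_X_pow_sub_C _ (by omega)
  have h3 : ((X - C RatFunc.X) * (X ^ (d - 1) - C 2) : (RatFunc k)[X]).natDegree = d := by
    rw [h1.natDegree_mul h2, natDegree_X_sub_C, natDegree_X_pow_sub_C]; omega
  constructor
  · refine (h1.mul h2).add_of_left ?_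
    rw [degree_X, degree_eq_natDegree (h1.mul h2).ne_zero, h3]
    exact_mod_cast (by omega : 1 < d)
  · unfold exF
    rw [natDegree_add_eq_left_of_natDegree_lt, h3]
    rw [h3, natDegree_X]; omega

lemma exF_good (d : ℕ) (hd : 3 ≤ d) (V : AbsoluteValue (RatFunc k) ℝ)
    (h : ∀ c : k, c ≠ 0 → V (algebraMap k (RatFunc k) c) = 1) (ht : V RatFunc.X ≤ 1) :
    PotGood V (exF k d) := by
  have hna := na_of_triv V h
  have h2 : V (2 : RatFunc k) ≤ 1 := by
    have e : (2 : RatFunc k) = algebraMap k (RatFunc k) 2 :=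
      (map_ofNat (algebraMap k (RatFunc k)) 2).symm
    rw [e]
    by_cases h0 : (2 : k) = 0
    · rw [h0, map_zero, map_zero]; exact zero_le_one
    · exact (h _ h0).le
  refine potGood_of_monic V hna _ (by rw [(exF_monic k d hd).1.leadingCoeff, map_one]) ?_
  have hX : Integ V (X : (RatFunc k)[X]) := by
    have := Integ.X_pow (V := V) 1
    rwa [pow_one] at this
  exact Integ.add hna (Integ.mul hna (Integ.sub hna hX (Integ.C ht))
    (Integ.sub hna (Integ.X_pow _) (Integ.C h2))) hX

lemma exF_eval (d : ℕ) (x : RatFunc k) :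
    (exF k d).eval x = (x - RatFunc.X) * (x ^ (d - 1) - 2) + x := by
  unfold exF
  simp

variable [IsAlgClosed k] [CharZero k]

lemma roots_card (n : ℕ) (hn : n ≠ 0) (a : k) (ha : a ≠ 0) :
    ∃ R : Finset k, R.card = n ∧ ∀ x ∈ R, x ^ n = a := by
  classical
  have hsep : (X ^ n - C a : k[X]).Separable :=
    separable_X_pow_sub_C a (by exact_mod_cast hn) ha
  refine ⟨(X ^ n - C a : k[X]).roots.toFinset, ?_, ?_⟩
  · rw [Multiset.toFinset_card_of_nodup (nodup_roots hsep)]
    have hs : (X ^ n - C a : k[X]).Splits := IsAlgClosed.splits _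
    rw [← hs.natDegree_eq_card_roots, natDegree_X_pow_sub_C]
  · intro x hx
    rw [Multiset.mem_toFinset, mem_roots (monic_X_pow_sub_C a hn).ne_zero, IsRoot.def] at hx
    simpa [sub_eq_zero] using hx

/-- An invariant set with `2 d - 1` elements. -/
lemma exF_points (d : ℕ) (hd : 3 ≤ d) : ∃ A : Finset (RatFunc k), A.card = 2 * d - 1 ∧
    ∀ a ∈ A, (exF k d).eval a ∈ A := by
  classical
  obtain ⟨R1, hR1, hR1'⟩ := roots_card k (d - 1) (by omega) 2 two_ne_zero
  obtain ⟨R2, hR2, hR2'⟩ := roots_card k (d - 1) (by omega) 1 one_ne_zero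
  have hdisj : Disjoint R1 R2 := by
    rw [disjoint_left]
    intro x h1 h2
    have e1 := hR1' x h1
    have e2 := hR2' x h2
    rw [e1] at e2
    norm_num at e2
  set ι := algebraMap k (RatFunc k) with hι
  have hinj : Function.Injective ι := ι.injective
  have hX : ∀ x : k, ι x ≠ RatFunc.X := by
    intro x hx
    have h1 : Transcendental k (RatFunc.X : RatFunc k) := RatFunc.transcendental_X
    exact h1 (by rw [← hx]; exact isAlgebraic_algebraMap x)
  refine ⟨insert RatFunc.X ((R1 ∪ R2).image ι), ?_, ?_⟩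
  · rw [card_insert_of_notMem, card_image_of_injective _ hinj, card_union_of_disjoint hdisj,
      hR1, hR2]
    · omega
    · intro h
      obtain ⟨x, _, hx⟩ := mem_image.1 h
      exact hX x hx
  · intro a ha
    rw [exF_eval]
    rcases mem_insert.1 ha with rfl | ha
    · rw [sub_self, zero_mul, zero_add]
      exact mem_insert_self _ _
    · obtain ⟨x, hx, rfl⟩ := mem_image.1 ha
      rcases mem_union.1 hx with h | h
      · have e : (ι x) ^ (d - 1) - 2 = 0 := by
          rw [← map_pow, hR1' x h, map_ofNat, sub_self]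
        rw [e, mul_zero, zero_add]
        exact mem_insert_of_mem (mem_image_of_mem _ hx)
      · have e : (ι x) ^ (d - 1) - 2 = -1 := by
          rw [← map_pow, hR2' x h, map_one]; norm_num
        rw [e]
        have e2 : (ι x - RatFunc.X) * (-1) + ι x = RatFunc.X := by ring
        rw [e2]
        exact mem_insert_self _ _

/-- The example is not isotrivial. -/
lemma exF_not_isotrivial (d : ℕ) (hd : 3 ≤ d) :
    ¬ ∃ y b : AlgebraicClosure (RatFunc k), y ≠ 0 ∧ ∀ m, IsAlgebraic k
      ((C y⁻¹ * (((exF k d).map (algebraMap (RatFunc k) (AlgebraicClosure (RatFunc k)))).comp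
        (C y * X + C b) - C b)).coeff m) := by
  classical
  rintro ⟨y, b, hy, h⟩
  set φ := algebraMap (RatFunc k) (AlgebraicClosure (RatFunc k)) with hφ
  set F := (exF k d).map φ with hF
  have hFd : F.natDegree = d := by
    rw [hF, natDegree_map_eq_of_injective φ.injective, (exF_monic k d hd).2]
  have hne : C y⁻¹ * (F.comp (C y * X + C b) - C b) ≠ X := by
    intro h1
    have h2 := congrArg natDegree h1
    rw [natDegree_C_mul (inv_ne_zero hy), natDegree_sub_C, natDegree_comp, hFd,
      natDegree_linear hy, natDegree_X] at h2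
    omega
  obtain ⟨R1, hR1, hR1'⟩ := roots_card k (d - 1) (by omega) 2 two_ne_zero
  obtain ⟨a1, ha1, a2, ha2, ha12⟩ := one_lt_card.1 (by omega : 1 < R1.card)
  have hfix : ∀ x : RatFunc k, (exF k d).eval x = x → IsAlgebraic k (y⁻¹ * (φ x - b)) :=
    fun x hx => fixed_alg F y b hy h hne (φ x) (by rw [hF, eval_map_apply, hx])
  have hfa : ∀ a ∈ R1, (exF k d).eval (algebraMap k (RatFunc k) a) = algebraMap k (RatFunc k) a := by
    intro a ha
    rw [exF_eval]
    have e : (algebraMap k (RatFunc k) a) ^ (d - 1) - 2 = 0 := by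
      rw [← map_pow, hR1' a ha, map_ofNat, sub_self]
    rw [e, mul_zero, zero_add]
  have h0 := hfix RatFunc.X (by rw [exF_eval, sub_self, zero_mul, zero_add])
  have h1 := hfix _ (hfa a1 ha1)
  have h2 := hfix _ (hfa a2 ha2)
  set A1 := φ (algebraMap k (RatFunc k) a1) with hA1
  set A2 := φ (algebraMap k (RatFunc k) a2) with hA2
  have hA12 : A2 - A1 ≠ 0 := by
    rw [sub_ne_zero]
    intro h3
    exact ha12 ((algebraMap k (RatFunc k)).injective (φ.injective h3)).symm
  have hal : ∀ a : k, IsAlgebraic k (φ (algebraMap k (RatFunc k) a)) := by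
    intro a
    have : φ (algebraMap k (RatFunc k) a) = algebraMap k (AlgebraicClosure (RatFunc k)) a := by
      rw [hφ, ← IsScalarTower.algebraMap_apply]
    rw [this]
    exact isAlgebraic_algebraMap a
  have h3 : IsAlgebraic k (φ RatFunc.X) := by
    have e : φ RatFunc.X = (y⁻¹ * (φ RatFunc.X - b) - y⁻¹ * (A1 - b)) *
        (y⁻¹ * (A2 - b) - y⁻¹ * (A1 - b))⁻¹ * (A2 - A1) + A1 := by
      have e1 : y⁻¹ * (φ RatFunc.X - b) - y⁻¹ * (A1 - b) = y⁻¹ * (φ RatFunc.X - A1) := by ring
      have e2 : y⁻¹ * (A2 - b) - y⁻¹ * (A1 - b) = y⁻¹ * (A2 - A1) := by ring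
      rw [e1, e2]
      field_simp
      ring
    rw [e]
    exact (((h0.sub h1).mul (h2.sub h1).inv).mul ((hal a2).sub (hal a1))).add (hal a1)
  have h4 : IsAlgebraic k (RatFunc.X : RatFunc k) :=
    (isAlgebraic_algebraMap_iff φ.injective).1 h3
  exact (RatFunc.transcendental_X : Transcendental k (RatFunc.X : RatFunc k)) h4

end ex

end Pool.Agent.TH737.FE
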