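import Pool.Agent.TH737.FE.Pot

/-!
# The example with `2 d - 1` preperiodic points
-/

set_option autoImplicit false

namespace Pool.Agent.TH737.FE

open Finset Polynomial Pool.Agent.TH737.HEN

universe u

section place

variable {k : Type u} [Field k]

lemma na_of_triv {K : Type*} [Field K] [Algebra k K] (V : AbsoluteValue K ℝ)
    (h : ∀ c : k, c ≠ 0 → V (algebraMap k K c) = 1) : IsNonarchimedean V := by
  have hn : ∀ n : ℕ, V (n : K) ≤ 1 := by
    intro n
    have e : (n : K) = algebraMap k K (n : k) := by simp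
    rw [e]
    by_cases h0 : (n : k) = 0
    · rw [h0, map_zero, map_zero]; exact zero_le_one
    · exact (h _ h0).le
  let _ : NormedField K := V.toNormedField
  have : IsUltrametricDist K :=
    IsUltrametricDist.isUltrametricDist_of_forall_norm_natCast_le_one hn
  intro x y
  exact IsUltrametricDist.norm_add_le_max x y

/-- the value of a polynomial at an element of absolute value more than one -/
lemma abs_aeval {K : Type*} [Field K] [Algebra k K] (V : AbsoluteValue K ℝ)
    (h : ∀ c : k, c ≠ 0 → V (algebraMap k K c) = 1) (t : K) (ht : 1 < V t) (P : k[X])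
    (hP : P ≠ 0) : V (aeval t P) = V t ^ P.natDegree := by
  have hna := na_of_triv V h
  have hc : ∀ c : k, V (algebraMap k K c) ≤ 1 := by
    intro c
    by_cases h0 : c = 0
    · rw [h0, map_zero, map_zero]; exact zero_le_one
    · exact (h c h0).le
  rw [aeval_eq_sum_range, sum_range_succ]
  rcases Nat.eq_zero_or_pos P.natDegree with h0 | h0
  · rw [h0]
    simp only [range_zero, sum_empty, zero_add, pow_zero, Algebra.smul_def, mul_one]
    refine h _ ?_
    have := leadingCoeff_ne_zero.2 hP
    rwa [leadingCoeff, h0] at this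
  · have hlead : V (P.coeff P.natDegree • t ^ P.natDegree) = V t ^ P.natDegree := by
      rw [Algebra.smul_def, map_mul, map_pow,
        h (P.coeff P.natDegree) (leadingCoeff_ne_zero.2 hP), one_mul]
    have hsum : V (∑ i ∈ range P.natDegree, P.coeff i • t ^ i) ≤ V t ^ (P.natDegree - 1) := by
      refine sum_le_of_nonarch V hna _ _ _ (by positivity) fun i hi => ?_
      rw [Algebra.smul_def, map_mul, map_pow]
      have hi' := mem_range.1 hi
      calc V (algebraMap k K (P.coeff i)) * V t ^ i ≤ 1 * V t ^ (P.natDegree - 1) :=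
            mul_le_mul (hc _) (pow_le_pow_right₀ ht.le (by omega)) (by positivity) (by norm_num)
        _ = _ := one_mul _
    have hlt : V t ^ (P.natDegree - 1) < V t ^ P.natDegree :=
      pow_lt_pow_right₀ ht (by omega)
    have key : V (∑ i ∈ range P.natDegree, P.coeff i • t ^ i) <
        V (P.coeff P.natDegree • t ^ P.natDegree) := by
      rw [hlead]
      exact hsum.trans_lt hlt
    rw [← hlead]
    have h1 := wiso hna (x := -(∑ i ∈ range P.natDegree, P.coeff i • t ^ i)) (y := 0)
      (z := P.coeff P.natDegree • t ^ P.natDegree) (by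
        rw [sub_zero, V.map_neg, zero_sub, V.map_neg]
        exact key)
    rw [zero_sub, V.map_neg] at h1
    rw [← h1, ← V.map_neg]
    congr 1
    ring

/-- Two absolute values of the rational function field, trivial on the constants, with a pole at
infinity are equivalent. -/
lemma equiv_of_pole (V W : AbsoluteValue (RatFunc k) ℝ)
    (hV : ∀ c : k, c ≠ 0 → V (algebraMap k (RatFunc k) c) = 1)
    (hW : ∀ c : k, c ≠ 0 → W (algebraMap k (RatFunc k) c) = 1)
    (h1 : 1 < V RatFunc.X) (h2 : 1 < W RatFunc.X) : V.IsEquiv W := by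
  rw [AbsoluteValue.isEquiv_iff_exists_rpow_eq]
  have l1 : 0 < Real.log (V RatFunc.X) := Real.log_pos h1
  have l2 : 0 < Real.log (W RatFunc.X) := Real.log_pos h2
  refine ⟨Real.log (W RatFunc.X) / Real.log (V RatFunc.X), div_pos l2 l1, ?_⟩
  set c := Real.log (W RatFunc.X) / Real.log (V RatFunc.X) with hc
  have hc0 : 0 < c := div_pos l2 l1
  have hX : V RatFunc.X ^ c = W RatFunc.X := by
    have p1 : 0 < V RatFunc.X := by linarith
    have p2 : 0 < W RatFunc.X := by linarith
    rw [Real.rpow_def_of_pos p1, hc, mul_div_cancel₀ _ l1.ne', Real.exp_log p2]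
  have hpoly : ∀ P : k[X], V (algebraMap k[X] (RatFunc k) P) ^ c =
      W (algebraMap k[X] (RatFunc k) P) := by
    intro P
    by_cases hP : P = 0
    · rw [hP, map_zero, map_zero, map_zero, Real.zero_rpow hc0.ne']
    · have e : algebraMap k[X] (RatFunc k) P = aeval (RatFunc.X : RatFunc k) P := by
        rw [← RatFunc.algebraMap_X, aeval_algebraMap_apply, aeval_X_left_apply]
      rw [e, abs_aeval V hV _ h1 P hP, abs_aeval W hW _ h2 P hP, ← hX,
        ← Real.rpow_natCast, ← Real.rpow_natCast, ← Real.rpow_mul (V.nonneg _),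
        ← Real.rpow_mul (V.nonneg _), mul_comm]
  funext x
  obtain ⟨p, q, hq, rfl⟩ := IsFractionRing.div_surjective (A := k[X]) x
  show V _ ^ c = W _
  rw [map_div₀, map_div₀, Real.div_rpow (V.nonneg _) (V.nonneg _), hpoly, hpoly]

end place

/-- fixed points of isotrivial polynomials -/
lemma fixed_alg {k M : Type*} [Field k] [Field M] [Algebra k M] (f : M[X]) (y b : M)
    (hy : y ≠ 0) (h : ∀ m, IsAlgebraic k ((C y⁻¹ * (f.comp (C y * X + C b) - C b)).coeff m))
    (hne : C y⁻¹ * (f.comp (C y * X + C b) - C b) ≠ X) (x : M) (hx : f.eval x = x) :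
    IsAlgebraic k (y⁻¹ * (x - b)) := by
  set g := C y⁻¹ * (f.comp (C y * X + C b) - C b) with hg
  have h1 : g.eval (y⁻¹ * (x - b)) = y⁻¹ * (x - b) := by
    rw [hg]
    simp only [eval_mul, eval_C, eval_sub, eval_comp, eval_add, eval_X]
    rw [mul_inv_cancel_left₀ hy, sub_add_cancel, hx]
  set A := algebraicClosure k M with hA
  have hgA : ∀ m, g.coeff m ∈ A := fun m => mem_algebraicClosure_iff.2 (h m)
  obtain ⟨g0, hg0⟩ : ∃ g0 : A[X], g0.map (algebraMap A M) = g := by
    have h2 : g ∈ Polynomial.lifts (algebraMap A M) := by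
      rw [Polynomial.lifts_iff_coeff_lifts]
      intro m
      exact ⟨⟨g.coeff m, hgA m⟩, rfl⟩
    exact (Polynomial.mem_lifts g).1 h2
  have h3 : IsAlgebraic A (y⁻¹ * (x - b)) := by
    refine ⟨g0 - X, ?_, ?_⟩
    · intro h4
      apply hne
      rw [← hg0, sub_eq_zero.1 h4, Polynomial.map_X]
    · rw [map_sub, aeval_X, aeval_def, ← eval_map, hg0, h1, sub_self]
  exact h3.restrictScalars k

end Pool.Agent.TH737.FE
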