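import Pool.Agent.TH737.FE.Ker
import Pool.Agent.TH737.HEN.NA

/-!
# Radii of the components of a lemniscate over an ultrametric field
-/

set_option autoImplicit false

namespace Pool.Agent.TH737.FE

open Finset Polynomial

variable {L : Type*} [Field L] {d : ℕ}

/-- `r` is the radius of the component of `a` -/
def IsRad (w : AbsoluteValue L ℝ) (ρ : Fin d → L) (D : ℝ) (a : L) (r : ℝ) : Prop :=
  0 < r ∧ ∏ i, max (w (a - ρ i)) r = D ∧ ∃ i, w (a - ρ i) ≤ r

open Classical in
/-- the radius -/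
noncomputable def rad (w : AbsoluteValue L ℝ) (ρ : Fin d → L) (D : ℝ) (a : L) : ℝ :=
  if h : ∃ r, IsRad w ρ D a r then h.choose else 1

variable {w : AbsoluteValue L ℝ} {ρ : Fin d → L} {D : ℝ}

lemma wsub_le (hw : IsNonarchimedean w) (x y z : L) : w (x - z) ≤ max (w (x - y)) (w (y - z)) := by
  have e : x - z = (x - y) + (y - z) := by ring
  rw [e]
  exact hw _ _

lemma wcomm (x y : L) : w (x - y) = w (y - x) := by
  rw [← w.map_neg, neg_sub]

/-- isosceles triangles -/
lemma wiso (hw : IsNonarchimedean w) {x y z : L} (h : w (x - y) < w (y - z)) :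
    w (x - z) = w (y - z) := by
  refine le_antisymm ((wsub_le hw x y z).trans (max_le h.le le_rfl)) ?_
  by_contra hcon
  push Not at hcon
  have h1 := wsub_le hw y x z
  rw [wcomm y x] at h1
  exact absurd h1 (not_le.2 (max_lt h hcon))

lemma max_same (hw : IsNonarchimedean w) {a b : L} {r : ℝ} (h : w (a - b) ≤ r) (z : L) :
    max (w (b - z)) r = max (w (a - z)) r := by
  apply le_antisymm
  · refine max_le ?_ (le_max_right _ _)
    have := wsub_le hw b a z
    rw [wcomm b a] at this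
    exact this.trans (max_le (h.trans (le_max_right _ _)) (le_max_left _ _))
  · refine max_le ?_ (le_max_right _ _)
    exact (wsub_le hw a b z).trans (max_le (h.trans (le_max_right _ _)) (le_max_left _ _))

lemma exists_isRad (hd : 1 ≤ d) (hD : 0 < D) (a : L) (ha : ∏ i, w (a - ρ i) ≤ D) :
    ∃ r, IsRad w ρ D a r := by
  have hne : (univ : Finset (Fin d)).Nonempty := ⟨⟨0, by omega⟩, mem_univ _⟩
  obtain ⟨i0, -, hi0⟩ := exists_min_image univ (fun i => w (a - ρ i)) hne
  set r0 := w (a - ρ i0) with hr0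
  have hr00 : 0 ≤ r0 := w.nonneg _
  set r1 := max (max r0 D) 1 with hr1
  have h11 : 1 ≤ r1 := le_max_right _ _
  have h01 : r0 ≤ r1 := (le_max_left _ _).trans (le_max_left _ _)
  have hD1 : D ≤ r1 := (le_max_right _ _).trans (le_max_left _ _)
  have hcont : Continuous fun r : ℝ => ∏ i, max (w (a - ρ i)) r := by
    refine continuous_finsetProd _ fun i _ => continuous_const.max continuous_id
  have hf0 : ∏ i, max (w (a - ρ i)) r0 ≤ D := by
    refine le_trans (le_of_eq ?_) ha
    exact prod_congr rfl fun i _ => max_eq_left (hi0 i (mem_univ i))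
  have hf1 : D ≤ ∏ i, max (w (a - ρ i)) r1 := by
    have h1 : ∏ _i : Fin d, r1 ≤ ∏ i, max (w (a - ρ i)) r1 :=
      prod_le_prod (fun _ _ => by linarith) fun i _ => le_max_right _ _
    rw [prod_const, card_univ, Fintype.card_fin] at h1
    have h2 : r1 ^ 1 ≤ r1 ^ d := pow_le_pow_right₀ h11 hd
    rw [pow_one] at h2
    linarith
  obtain ⟨r, hr, hrD⟩ := intermediate_value_Icc h01 hcont.continuousOn ⟨hf0, hf1⟩
  have hr_nonneg : 0 ≤ r := hr00.trans hr.1
  refine ⟨r, ?_, hrD, i0, hr.1⟩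
  rcases hr_nonneg.eq_or_lt with h | h
  · exfalso
    dsimp only at hrD
    rw [← h] at hrD
    have h0 : r0 = 0 := le_antisymm (by rw [h]; exact hr.1) hr00
    have : ∏ i, max (w (a - ρ i)) 0 = 0 := by
      refine prod_eq_zero (mem_univ i0) ?_
      rw [← hr0, h0, max_self]
    rw [this] at hrD
    exact absurd hrD hD.ne
  · exact h

lemma isRad_unique {a : L} {r r' : ℝ} (h : IsRad w ρ D a r) (h' : IsRad w ρ D a r') :
    r = r' := by
  have key : ∀ r r', IsRad w ρ D a r → IsRad w ρ D a r' → ¬ r < r' := by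
    intro r r' h h' hlt
    obtain ⟨h1, h2, i, h3⟩ := h
    obtain ⟨h1', h2', -⟩ := h'
    have := prod_lt_prod (s := univ) (f := fun i => max (w (a - ρ i)) r)
      (g := fun i => max (w (a - ρ i)) r') (fun i _ => lt_max_of_lt_right h1)
      (fun i _ => max_le_max le_rfl hlt.le) ⟨i, mem_univ i, by
        show max (w (a - ρ i)) r < max (w (a - ρ i)) r'
        rw [max_eq_right h3]
        exact lt_max_of_lt_right hlt⟩
    rw [h2, h2'] at this
    exact lt_irrefl _ this
  rcases lt_trichotomy r r' with h1 | h1 | h1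
  · exact absurd h1 (key _ _ h h')
  · exact h1
  · exact absurd h1 (key _ _ h' h)

lemma rad_spec {a : L} (h : ∃ r, IsRad w ρ D a r) : IsRad w ρ D a (rad w ρ D a) := by
  unfold rad
  rw [dif_pos h]
  exact h.choose_spec

lemma rad_pos (a : L) : 0 < rad w ρ D a := by
  by_cases h : ∃ r, IsRad w ρ D a r
  · exact (rad_spec h).1
  · unfold rad
    rw [dif_neg h]
    exact one_pos

lemma isRad_trans (hw : IsNonarchimedean w) {a b : L} {r : ℝ} (h : IsRad w ρ D a r)
    (hab : w (a - b) ≤ r) : IsRad w ρ D b r := by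
  obtain ⟨h1, h2, i, h3⟩ := h
  refine ⟨h1, ?_, i, ?_⟩
  · rw [← h2]
    exact prod_congr rfl fun i _ => max_same hw hab _
  · have := wsub_le hw b a (ρ i)
    rw [wcomm b a] at this
    exact this.trans (max_le hab h3)

lemma rad_eq (hw : IsNonarchimedean w) {a b : L} (h : ∃ r, IsRad w ρ D a r)
    (hab : w (a - b) ≤ rad w ρ D a) : rad w ρ D b = rad w ρ D a := by
  have h1 := isRad_trans hw (rad_spec h) hab
  exact isRad_unique (rad_spec ⟨_, h1⟩) h1

lemma dom_of_near (hw : IsNonarchimedean w) {a b : L} (h : ∃ r, IsRad w ρ D a r)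
    (hab : w (a - b) ≤ rad w ρ D a) : ∃ r, IsRad w ρ D b r :=
  ⟨_, isRad_trans hw (rad_spec h) hab⟩

/-- roots have radii -/
lemma dom_root (hd : 1 ≤ d) (hD : 0 < D) (i : Fin d) : ∃ r, IsRad w ρ D (ρ i) r := by
  refine exists_isRad hd hD _ ?_
  have : ∏ j, w (ρ i - ρ j) = 0 := prod_eq_zero (mem_univ i) (by simp)
  rw [this]
  exact hD.le

lemma rad_le_one (hd : 2 ≤ d) (hD : 1 < D) {a : L} (h : ∃ r, IsRad w ρ D a r)
    (hfar : ∃ i, D ≤ w (a - ρ i)) : rad w ρ D a ≤ 1 := by
  classical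
  obtain ⟨h1, h2, -⟩ := rad_spec h
  obtain ⟨i, hi⟩ := hfar
  by_contra hcon
  push Not at hcon
  set r := rad w ρ D a with hr
  have hmem : i ∈ (univ : Finset (Fin d)) := mem_univ i
  rw [← mul_prod_erase _ _ hmem] at h2
  have h3 : D ≤ max (w (a - ρ i)) r := hi.trans (le_max_left _ _)
  have h4 : r ≤ ∏ j ∈ univ.erase i, max (w (a - ρ j)) r := by
    have h5 : ∏ _j ∈ (univ : Finset (Fin d)).erase i, r ≤
        ∏ j ∈ univ.erase i, max (w (a - ρ j)) r :=
      prod_le_prod (fun _ _ => h1.le) fun j _ => le_max_right _ _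
    rw [prod_const, card_erase_of_mem hmem, card_univ, Fintype.card_fin] at h5
    have h6 : r ^ 1 ≤ r ^ (d - 1) := pow_le_pow_right₀ hcon.le (by omega)
    rw [pow_one] at h6
    linarith
  have h5 : D * 1 < max (w (a - ρ i)) r * ∏ j ∈ univ.erase i, max (w (a - ρ j)) r := by
    have h6 : 1 < ∏ j ∈ univ.erase i, max (w (a - ρ j)) r := lt_of_lt_of_le hcon h4
    have h7 : 0 < D := by linarith
    calc D * 1 < D * ∏ j ∈ univ.erase i, max (w (a - ρ j)) r := by gcongr
      _ ≤ _ := by gcongr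
  rw [h2] at h5
  linarith

/-- if the radius is one then all roots but one are within distance one -/
lemma near_of_rad_one (hd : 2 ≤ d) (hD : 1 < D) {a : L} (h : ∃ r, IsRad w ρ D a r)
    (i : Fin d) (hi : D ≤ w (a - ρ i)) (hone : rad w ρ D a = 1) (j : Fin d) (hj : j ≠ i) :
    w (a - ρ j) ≤ 1 := by
  classical
  obtain ⟨h1, h2, -⟩ := rad_spec h
  rw [hone] at h2
  by_contra hcon
  push Not at hcon
  have hmem : i ∈ (univ : Finset (Fin d)) := mem_univ i
  have hmem2 : j ∈ (univ : Finset (Fin d)).erase i := mem_erase.2 ⟨hj, mem_univ j⟩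
  rw [← mul_prod_erase _ _ hmem, ← mul_prod_erase _ _ hmem2] at h2
  have h3 : D ≤ max (w (a - ρ i)) 1 := hi.trans (le_max_left _ _)
  have h4 : 1 < max (w (a - ρ j)) 1 := lt_max_of_lt_left hcon
  have h5 : 1 ≤ ∏ l ∈ (univ.erase i).erase j, max (w (a - ρ l)) 1 := by
    have h6 : ∏ _l ∈ ((univ : Finset (Fin d)).erase i).erase j, (1 : ℝ) ≤
        ∏ l ∈ (univ.erase i).erase j, max (w (a - ρ l)) 1 :=
      prod_le_prod (fun _ _ => zero_le_one) fun j _ => le_max_right _ _
    rwa [prod_const_one] at h6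
  have h7 : D < max (w (a - ρ i)) 1 * (max (w (a - ρ j)) 1 *
      ∏ l ∈ (univ.erase i).erase j, max (w (a - ρ l)) 1) := by
    have h8 : 1 < max (w (a - ρ j)) 1 * ∏ l ∈ (univ.erase i).erase j, max (w (a - ρ l)) 1 := by
      nlinarith
    have h9 : 0 < D := by linarith
    nlinarith
  rw [h2] at h7
  exact lt_irrefl _ h7

/-- the kernel -/
noncomputable def ker (w : AbsoluteValue L ℝ) (ρ : Fin d → L) (D : ℝ) (a b : L ⊕ Fin d) : ℝ :=
  Real.log (max (w (Sum.elim id ρ a - Sum.elim id ρ b))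
    (max (rad w ρ D (Sum.elim id ρ a)) (rad w ρ D (Sum.elim id ρ b))))

lemma kk_pos (a b : L) : 0 < max (w (a - b)) (max (rad w ρ D a) (rad w ρ D b)) :=
  lt_max_of_lt_right (lt_max_of_lt_left (rad_pos a))

lemma ker_symm (a b : L ⊕ Fin d) : ker w ρ D a b = ker w ρ D b a := by
  unfold ker
  rw [wcomm, max_comm (rad w ρ D (Sum.elim id ρ a))]

lemma ker_tri (hw : IsNonarchimedean w) (a b c : L ⊕ Fin d) :
    ker w ρ D a c ≤ max (ker w ρ D a b) (ker w ρ D b c) := by
  unfold ker
  set x := Sum.elim id ρ a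
  set y := Sum.elim id ρ b
  set z := Sum.elim id ρ c
  have h : max (w (x - z)) (max (rad w ρ D x) (rad w ρ D z)) ≤
      max (max (w (x - y)) (max (rad w ρ D x) (rad w ρ D y)))
        (max (w (y - z)) (max (rad w ρ D y) (rad w ρ D z))) := by
    refine max_le ?_ (max_le ?_ ?_)
    · exact (wsub_le hw x y z).trans (max_le_max (le_max_left _ _) (le_max_left _ _))
    · exact ((le_max_left _ _).trans (le_max_right _ _)).trans (le_max_left _ _)
    · exact ((le_max_right _ _).trans (le_max_right _ _)).trans (le_max_right _ _)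
  refine (Real.log_le_log (kk_pos x z) h).trans ?_
  rcases le_total (max (w (x - y)) (max (rad w ρ D x) (rad w ρ D y)))
    (max (w (y - z)) (max (rad w ρ D y) (rad w ρ D z))) with h1 | h1
  · rw [max_eq_right h1]
    exact le_max_right _ _
  · rw [max_eq_left h1]
    exact le_max_left _ _

/-- the kernel between a point and a root -/
lemma kk_root (hw : IsNonarchimedean w) (hd : 1 ≤ d) (hD : 0 < D) {a : L} (i : Fin d) :
    max (w (a - ρ i)) (max (rad w ρ D a) (rad w ρ D (ρ i))) = max (w (a - ρ i)) (rad w ρ D a) := by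
  apply le_antisymm
  · refine max_le (le_max_left _ _) (max_le (le_max_right _ _) ?_)
    by_cases h : w (ρ i - a) ≤ rad w ρ D (ρ i)
    · rw [rad_eq hw (dom_root hd hD i) h]
      exact le_max_right _ _
    · push Not at h
      rw [wcomm a (ρ i)]
      exact h.le.trans (le_max_left _ _)
  · exact max_le_max le_rfl (le_max_left _ _)

lemma sum_ker (hw : IsNonarchimedean w) (hd : 1 ≤ d) (hD : 0 < D) {a : L}
    (h : ∃ r, IsRad w ρ D a r) :
    ∑ i, Real.log (max (w (a - ρ i)) (max (rad w ρ D a) (rad w ρ D (ρ i)))) = Real.log D := by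
  obtain ⟨h1, h2, -⟩ := rad_spec h
  have h3 : ∑ i, Real.log (max (w (a - ρ i)) (max (rad w ρ D a) (rad w ρ D (ρ i)))) =
      ∑ i, Real.log (max (w (a - ρ i)) (rad w ρ D a)) :=
    sum_congr rfl fun i _ => by rw [kk_root hw hd hD]
  rw [h3, ← Real.log_prod (fun i _ => (lt_max_of_lt_right h1).ne'), h2]

end Pool.Agent.TH737.FE
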