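import Pool.Agent.TH737.FE.Pot
import Pool.Agent.TH450.FG.G

/-!
# Polynomials over function fields: assembly
-/

set_option autoImplicit false

namespace Pool.Agent.TH737.FE

open Finset Polynomial Pool.Agent.TH737.HEN

universe u v w

/-- iterates -/
lemma iter_poly {M : Type*} [Field M] (G : M[X]) (hG : G.Monic) (hd : G.natDegree ≠ 0) (m : ℕ) :
    ∃ H : M[X], H.Monic ∧ H.natDegree = G.natDegree ^ m ∧
      ∀ S : Finset M, (∀ s ∈ S, G.eval s ∈ S) → ∀ s ∈ S, H.eval s ∈ S := by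
  induction m with
  | zero => exact ⟨X, monic_X, by simp, fun S _ s hs => by simpa using hs⟩
  | succ m ih =>
    obtain ⟨H, h1, h2, h3⟩ := ih
    refine ⟨G.comp H, hG.comp h1 (by rw [h2]; exact pow_ne_zero _ hd), ?_, ?_⟩
    · rw [natDegree_comp, h2, pow_succ]; ring
    · intro S hS s hs
      rw [eval_comp]
      exact hS _ (h3 S hS s hs)

/-- **The bound for a family of places with a product formula.** -/
theorem core_poly {k : Type v} {K : Type u} [Field k] [Field K] [Algebra k K]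
    (Q : Pool.Agent.TH450.FG.PF.{u, v, w} k K) (f : K[X]) (d : ℕ) (hd : 2 ≤ d)
    (hf : f.natDegree = d)
    (hiso : ¬ ∃ y b : AlgebraicClosure K, y ≠ 0 ∧ ∀ m, IsAlgebraic k
      ((C y⁻¹ * ((f.map (algebraMap K (AlgebraicClosure K))).comp (C y * X + C b) - C b)).coeff m))
    (T : Finset (AbsoluteValue K ℝ))
    (hT : ∀ v : Q.Pl, (Q.V v).IsNontrivial → ¬ PotGood (Q.V v) f → ∃ t ∈ T, (Q.V v).IsEquiv t)
    (S : Finset K) (hS : ∀ s ∈ S, f.eval s ∈ S) :
    (∀ m, 3 ≤ d ^ m → 2 * T.card ≤ d ^ m → S.card ≤ 2 * (T.card ^ 2 + 1) * d ^ m) ∧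
      (3 ≤ d → T.card = 1 → S.card ≤ 2 * d - 1) ∧
      (∀ m, 3 ≤ d ^ m → 28 * T.card ≤ d ^ m → S.card ≤ 2 * (T.card + 1) * d ^ m) := by
  classical
  have hf0 : f ≠ 0 := by
    rintro rfl
    simp at hf
    omega
  have hlead0 : f.leadingCoeff ≠ 0 := leadingCoeff_ne_zero.2 hf0
  set φ := algebraMap K (AlgebraicClosure K) with hφ
  have hfd : (f.map φ).natDegree = d := by
    rw [natDegree_map_eq_of_injective φ.injective, hf]
  have hcl : Closed (f.map φ) 0 (S.image φ) := by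
    intro x hx
    obtain ⟨s, hs, rfl⟩ := mem_image.1 hx
    refine ⟨_, mem_image_of_mem _ (hS s hs), _, mem_image_of_mem _ (hS s hs), ?_⟩
    rw [eval_map_apply]
    ring
  obtain ⟨α, G, hα, hG, hGd, hGc⟩ := exists_monic' (f.map φ) 0 (by rw [hfd]; exact hd)
    (S.image φ) hcl
  rw [hfd] at hα hGd
  rw [leadingCoeff_map] at hα
  set S' := (S.image φ).image (fun x => α * x) with hS'def
  have hS' : ∀ x ∈ S', G.eval x ∈ S' := by
    intro x hx
    obtain ⟨p, hp, q, hq, h⟩ := hGc x hx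
    rw [zero_mul, add_zero] at h
    rw [← h]
    exact hp
  have hα0 : α ≠ 0 := by
    rintro rfl
    rw [zero_pow (by omega)] at hα
    exact hlead0 (φ.injective (by rw [map_zero]; exact hα.symm))
  have hcardS' : S'.card = S.card := by
    rw [hS'def, card_image_of_injective _ (fun x y h => mul_left_cancel₀ hα0 h),
      card_image_of_injective _ φ.injective]
  have hd1 : (0 : ℝ) < ((d - 1 : ℕ) : ℝ) := by exact_mod_cast (by omega : 0 < d - 1)
  choose W hW using fun v => Pool.Agent.TH450.FG.exists_ext_gen (Q.V v) (Q.na v)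
  have hWna : ∀ v, IsNonarchimedean (W v) := fun v => Pool.Agent.TH450.FG.ext_na (Q.na v) (hW v)
  have hW' : ∀ v x, W v (φ x) = Q.V v x := fun v x => hW v x
  set z : K → K → K := fun s t => (s - t) ^ (d - 1) * f.leadingCoeff with hz
  have hz0 : ∀ s t, s ≠ t → z s t ≠ 0 := fun s t hst =>
    mul_ne_zero (pow_ne_zero _ (sub_ne_zero.2 hst)) hlead0
  have hzα : ∀ s t, (α * φ (s - t)) ^ (d - 1) = φ (z s t) := by
    intro s t
    rw [hz]
    simp only [map_mul, map_pow]
    rw [mul_pow, hα]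
    ring
  have hlog : ∀ v s t, ((d - 1 : ℕ) : ℝ) * Real.log (W v (α * φ s - α * φ t)) =
      Real.log (Q.V v (z s t)) := by
    intro v s t
    rw [← mul_sub, ← map_sub, ← Real.log_pow, ← map_pow, hzα, hW']
  -- the places
  set Sp : Finset Q.Pl := S.biUnion fun s => S.biUnion fun t =>
    if h : z s t ≠ 0 then (Q.fin (z s t) h).toFinset else ∅ with hSp
  have hout : ∀ s ∈ S, ∀ t ∈ S, s ≠ t → ∀ v, v ∉ Sp → Q.V v (z s t) = 1 := by
    intro s hs t ht hst v hv
    by_contra hne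
    apply hv
    rw [hSp, mem_biUnion]
    refine ⟨s, hs, ?_⟩
    rw [mem_biUnion]
    refine ⟨t, ht, ?_⟩
    rw [dif_pos (hz0 s t hst), Set.Finite.mem_toFinset]
    exact hne
  have hprod : ∀ s ∈ S, ∀ t ∈ S, s ≠ t → ∑ v ∈ Sp, Q.wt v * Real.log (Q.V v (z s t)) = 0 :=
    fun s hs t ht hst => Q.prod _ (hz0 s t hst) Sp (hout s hs t ht hst)
  let Bad : Q.Pl → Prop := fun v => ¬ PotGood (Q.V v) f
  have hgood : ∀ v, ¬ Bad v → ∀ s ∈ S, ∀ t ∈ S, Q.V v (z s t) ≤ 1 := by
    intro v hv s hs t ht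
    have h1 := potGood_bound (Q.V v) (Q.na v) f (by rw [hf]; exact hd) (not_not.1 hv) S hS hs ht
    rwa [hf] at h1
  set B := Sp.filter Bad with hB
  have hBbad : ∀ v ∈ B, Bad v := fun v hv => (mem_filter.1 hv).2
  have hτ : ∀ v : Q.Pl, Bad v → ∃ t ∈ T, (Q.V v).IsEquiv t := by
    intro v hv
    refine hT v ?_ hv
    by_contra hnt
    exact hv (potGood_trivial _ (Q.na v) hnt f hf0)
  haveI : Nonempty (AbsoluteValue K ℝ) := ⟨AbsoluteValue.trivial⟩
  choose! τ hτT hτe using hτ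
  set T' : Finset (AbsoluteValue K ℝ) := B.image τ with hT'
  have hT'T : T' ⊆ T := by
    intro t ht
    rw [hT', mem_image] at ht
    obtain ⟨v, hv, rfl⟩ := ht
    exact hτT v (hBbad v hv)
  have hρ : ∀ t : {t // t ∈ T'}, ∃ v ∈ B, τ v = t.1 := by
    rintro ⟨t, ht⟩
    rw [hT', mem_image] at ht
    exact ht
  choose ρ hρB hρτ using hρ
  have hmemT' : ∀ v ∈ B, τ v ∈ T' := fun v hv => mem_image_of_mem τ hv
  have hσ : ∀ v (hv : v ∈ B), ∃ s : ℝ, 0 < s ∧ ∀ x : K,
      Real.log (Q.V v x) = s * Real.log (Q.V (ρ ⟨τ v, hmemT' v hv⟩) x) := by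
    intro v hv
    have h1 := hτe v (hBbad v hv)
    have h2 := hτe _ (hBbad _ (hρB ⟨τ v, hmemT' v hv⟩))
    rw [hρτ] at h2
    have h3 := h2.trans h1.symm
    obtain ⟨s, hs, h4⟩ := AbsoluteValue.isEquiv_iff_exists_rpow_eq.1 h3
    refine ⟨s, hs, fun x => ?_⟩
    rw [← congrFun h4 x]
    exact Pool.Agent.TH450.FG.rpow_log hs (AbsoluteValue.nonneg _ _)
  choose! σ hσ0 hσ1 using hσ
  set ω : {t // t ∈ T'} → ℝ := fun t =>
    ∑ v ∈ B.filter (fun v => τ v = t.1), Q.wt v * σ v with hω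
  have hω0 : ∀ t, 0 < ω t := by
    intro t
    refine sum_pos (fun v hv => ?_) ⟨ρ t, mem_filter.2 ⟨hρB t, hρτ t⟩⟩
    exact mul_pos (Q.wt_pos v) (hσ0 v (mem_filter.1 hv).1)
  have hsumω : ∀ x : K, ∑ t, ω t * Real.log (Q.V (ρ t) x) =
      ∑ v ∈ B, Q.wt v * Real.log (Q.V v x) := by
    intro x
    have h2 : ∀ t : {t // t ∈ T'}, ω t * Real.log (Q.V (ρ t) x) =
        ∑ v ∈ B.filter (fun v => τ v = t.1), Q.wt v * Real.log (Q.V v x) := by
      intro t
      rw [hω]
      simp only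
      rw [sum_mul]
      refine sum_congr rfl fun v hv => ?_
      obtain ⟨hv1, hv2⟩ := mem_filter.1 hv
      have h3 : (⟨τ v, hmemT' v hv1⟩ : {t // t ∈ T'}) = t := Subtype.ext hv2
      have h4 := hσ1 v hv1 x
      rw [h3] at h4
      rw [h4]
      ring
    simp_rw [h2]
    have h6 := sum_coe_sort T' (fun t =>
      ∑ v ∈ B.filter (fun v => τ v = t), Q.wt v * Real.log (Q.V v x))
    rw [h6]
    exact sum_fiberwise_of_maps_to hmemT' _
  have hge : ∀ s ∈ S, ∀ t ∈ S, s ≠ t → 0 ≤ ∑ v ∈ B, Q.wt v * Real.log (Q.V v (z s t)) := by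
    intro s hs t ht hst
    have h1 := hprod s hs t ht hst
    rw [← sum_filter_add_sum_filter_not Sp Bad] at h1
    have h2 : ∑ v ∈ Sp.filter (fun v => ¬ Bad v), Q.wt v * Real.log (Q.V v (z s t)) ≤ 0 :=
      sum_nonpos fun v hv => mul_nonpos_of_nonneg_of_nonpos (Q.wt_pos v).le
        (Real.log_nonpos ((Q.V v).nonneg _) (hgood v (mem_filter.1 hv).2 s hs t ht))
    rw [← hB] at h1
    linarith
  have hmemS' : ∀ x ∈ S', ∃ s ∈ S, x = α * φ s := by
    intro x hx
    obtain ⟨y, hy, rfl⟩ := mem_image.1 hx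
    obtain ⟨s, hs, rfl⟩ := mem_image.1 hy
    exact ⟨s, hs, rfl⟩
  have hprod' : ∀ x ∈ S', ∀ y ∈ S', x ≠ y → 0 ≤ ∑ t, ω t * Real.log (W (ρ t) (x - y)) := by
    intro x hx y hy hxy
    obtain ⟨s, hs, rfl⟩ := hmemS' x hx
    obtain ⟨t, ht, rfl⟩ := hmemS' y hy
    have hst : s ≠ t := fun h => hxy (by rw [h])
    have h1 := hge s hs t ht hst
    rw [← hsumω] at h1
    have h2 : ∑ t', ω t' * Real.log (Q.V (ρ t') (z s t)) =
        ((d - 1 : ℕ) : ℝ) * ∑ t', ω t' * Real.log (W (ρ t') (α * φ s - α * φ t)) := by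
      rw [mul_sum]
      refine sum_congr rfl fun t' _ => ?_
      rw [← hlog]
      ring
    rw [h2] at h1
    exact nonneg_of_mul_nonneg_right h1 hd1
  have hTc : Fintype.card {t // t ∈ T'} ≤ T.card := by
    rw [Fintype.card_coe]
    exact card_le_card hT'T
  rw [← hcardS']
  by_cases hbig : ∃ t : {t // t ∈ T'}, ∃ p ∈ S', ∃ q ∈ S', 1 < W (ρ t) (p - q)
  · refine ⟨?_, ?_, ?_⟩
    · intro m h3 h2
      obtain ⟨H, hH1, hH2, hH3⟩ := iter_poly G hG (by rw [hGd]; omega) m
      rw [hGd] at hH2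
      have h4 := (glob (fun t => W (ρ t)) (fun t => hWna _) ω hω0 (d ^ m) h3 H hH1 hH2 S'
        (hH3 S' hS') hprod' hbig).1 (by omega)
      refine h4.trans ?_
      have h5 : Fintype.card {t // t ∈ T'} ^ 2 ≤ T.card ^ 2 := Nat.pow_le_pow_left hTc 2
      have h6 : 2 * Fintype.card {t // t ∈ T'} ^ 2 * d ^ m ≤ 2 * T.card ^ 2 * d ^ m := by gcongr
      have h7 : 2 * (T.card ^ 2 + 1) * d ^ m = 2 * T.card ^ 2 * d ^ m + 2 * d ^ m := by ring
      omega
    · intro h3 h1
      have h4 : Fintype.card {t // t ∈ T'} = 1 := by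
        obtain ⟨t, -⟩ := hbig
        have h5 : 0 < Fintype.card {t // t ∈ T'} := Fintype.card_pos_iff.2 ⟨t⟩
        omega
      exact (glob (fun t => W (ρ t)) (fun t => hWna _) ω hω0 d h3 G hG hGd S' hS' hprod'
        hbig).2.1 h4
    · intro m h3 h2
      obtain ⟨H, hH1, hH2, hH3⟩ := iter_poly G hG (by rw [hGd]; omega) m
      rw [hGd] at hH2
      have h4 := (glob (fun t => W (ρ t)) (fun t => hWna _) ω hω0 (d ^ m) h3 H hH1 hH2 S'
        (hH3 S' hS') hprod' hbig).2.2 (by omega)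
      refine h4.trans ?_
      have h6 : 2 * Fintype.card {t // t ∈ T'} * d ^ m ≤ 2 * T.card * d ^ m := by gcongr
      have h7 : 2 * (T.card + 1) * d ^ m = 2 * T.card * d ^ m + 2 * d ^ m := by ring
      omega
  · push Not at hbig
    have hle : S.card ≤ d := by
      by_contra hcard
      push Not at hcard
      refine hiso (isotriv φ f d hf S hS hcard α hα0 ?_)
      intro s hs t ht
      by_cases hst : s = t
      · rw [hst, sub_self, map_zero, mul_zero]
        exact isAlgebraic_zero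
      have h1 : ∀ v ∈ Sp, Q.wt v * Real.log (Q.V v (z s t)) ≤ 0 := by
        intro v hv
        refine mul_nonpos_of_nonneg_of_nonpos (Q.wt_pos v).le ?_
        by_cases hb : Bad v
        · have hvB : v ∈ B := mem_filter.2 ⟨hv, hb⟩
          rw [hσ1 v hvB]
          refine mul_nonpos_of_nonneg_of_nonpos (hσ0 v hvB).le ?_
          rw [← hlog]
          refine mul_nonpos_of_nonneg_of_nonpos hd1.le (Real.log_nonpos (AbsoluteValue.nonneg _ _) ?_)
          exact hbig _ _ (mem_image_of_mem _ (mem_image_of_mem _ hs)) _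
            (mem_image_of_mem _ (mem_image_of_mem _ ht))
        · exact Real.log_nonpos ((Q.V v).nonneg _) (hgood v hb s hs t ht)
      have h2 := hprod s hs t ht hst
      have h3 : ∀ v, Q.V v (z s t) = 1 := by
        intro v
        by_cases hv : v ∈ Sp
        · have h4 := (sum_eq_zero_iff_of_nonpos h1).1 h2 v hv
          rcases mul_eq_zero.1 h4 with h5 | h5
          · exact absurd h5 (Q.wt_pos v).ne'
          · exact Real.eq_one_of_pos_of_log_eq_zero ((Q.V v).pos (hz0 s t hst)) h5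
        · exact hout s hs t ht hst v hv
      have h4 : IsAlgebraic k (z s t) := Q.const _ (hz0 s t hst) h3
      have h5 : IsAlgebraic k (φ (z s t)) := h4.algebraMap
      rw [← hzα] at h5
      exact h5.of_pow (by omega)
    rw [hcardS']
    have hdm : ∀ m, 3 ≤ d ^ m → d ≤ d ^ m := by
      intro m h3
      have hm : m ≠ 0 := by
        rintro rfl
        simp at h3
      exact Nat.le_self_pow hm d
    refine ⟨?_, ?_, ?_⟩
    · intro m h3 _
      have h4 := hdm m h3
      have h5 : d ^ m ≤ 2 * (T.card ^ 2 + 1) * d ^ m := by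
        have : 1 ≤ 2 * (T.card ^ 2 + 1) := by omega
        calc d ^ m = 1 * d ^ m := (one_mul _).symm
          _ ≤ _ := Nat.mul_le_mul_right _ this
      omega
    · intro _ _
      omega
    · intro m h3 _
      have h4 := hdm m h3
      have h5 : d ^ m ≤ 2 * (T.card + 1) * d ^ m := by
        have : 1 ≤ 2 * (T.card + 1) := by omega
        calc d ^ m = 1 * d ^ m := (one_mul _).symm
          _ ≤ _ := Nat.mul_le_mul_right _ this
      omega

end Pool.Agent.TH737.FE
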