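import Pool.Agent.TH737.FE.LocW

/-!
# Counting with weights
-/

set_option autoImplicit false

namespace Pool.Agent.TH737.FE

open Finset

lemma wcount {L τ ι : Type*} [DecidableEq L] [Fintype τ] [DecidableEq τ] [Fintype ι]
    [DecidableEq ι] (κ : τ → L → ι) (lam : τ → L → ℝ) (ω : τ → ℝ) (S : Finset L)
    (hω : ∀ t, 0 < ω t) (h1 : ∀ t, ∀ x ∈ S, 0 ≤ lam t x) (c : ℝ) (hc : 0 ≤ c)
    (hX : ∀ t j, ∑ x ∈ (S.filter fun x => 0 < lam t x).filter (fun x => κ t x = j),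
      ω t * lam t x / (∑ u, ω u * lam u x) ≤
        1 + c * ((S.filter fun x => 0 < lam t x).filter (fun x => κ t x = j)).card) :
    ((S.filter fun x => ∃ t, 0 < lam t x).card : ℝ) ≤
      Fintype.card τ * (Fintype.card ι + c * (S.filter fun x => ∃ t, 0 < lam t x).card) := by
  classical
  set H := S.filter fun x => ∃ t, 0 < lam t x with hH
  have hpos : ∀ x ∈ H, 0 < ∑ u, ω u * lam u x := by
    intro x hx
    obtain ⟨hxS, t, ht⟩ := mem_filter.1 hx
    exact sum_pos' (fun u _ => mul_nonneg (hω u).le (h1 u x hxS))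
      ⟨t, mem_univ _, mul_pos (hω t) ht⟩
  have e1 : (H.card : ℝ) = ∑ t, ∑ x ∈ H, ω t * lam t x / (∑ u, ω u * lam u x) := by
    rw [sum_comm, card_eq_sum_ones]
    push_cast
    refine sum_congr rfl fun x hx => ?_
    rw [← sum_div, div_self (hpos x hx).ne']
  have e2 : ∀ t, ∑ x ∈ H, ω t * lam t x / (∑ u, ω u * lam u x) =
      ∑ x ∈ S.filter (fun x => 0 < lam t x), ω t * lam t x / (∑ u, ω u * lam u x) := by
    intro t
    symm
    apply sum_subset
    · intro x hx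
      obtain ⟨h2, h3⟩ := mem_filter.1 hx
      exact mem_filter.2 ⟨h2, t, h3⟩
    · intro x hx hx'
      have hxS := (mem_filter.1 hx).1
      have : lam t x = 0 := by
        by_contra hne
        exact hx' (mem_filter.2 ⟨hxS, lt_of_le_of_ne (h1 t x hxS) (Ne.symm hne)⟩)
      rw [this, mul_zero, zero_div]
  have e3 : ∀ t, ∑ x ∈ S.filter (fun x => 0 < lam t x), ω t * lam t x / (∑ u, ω u * lam u x) ≤
      Fintype.card ι + c * H.card := by
    intro t
    rw [← sum_fiberwise (S.filter fun x => 0 < lam t x) (κ t)]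
    refine (sum_le_sum fun j _ => hX t j).trans ?_
    rw [sum_add_distrib, sum_const, card_univ, nsmul_eq_mul, mul_one, ← mul_sum]
    have h2 : ∑ j, (((S.filter fun x => 0 < lam t x).filter (fun x => κ t x = j)).card : ℝ) =
        (S.filter fun x => 0 < lam t x).card := by
      rw [← Nat.cast_sum]
      congr 1
      exact (card_eq_sum_card_fiberwise (fun x _ => mem_coe.2 (mem_univ _))).symm
    rw [h2]
    have h3 : ((S.filter fun x => 0 < lam t x).card : ℝ) ≤ H.card := by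
      have : (S.filter fun x => 0 < lam t x).card ≤ H.card := by
        refine card_le_card fun x hx => ?_
        obtain ⟨h2, h3⟩ := mem_filter.1 hx
        exact mem_filter.2 ⟨h2, t, h3⟩
      exact_mod_cast this
    have := mul_le_mul_of_nonneg_left h3 hc
    linarith
  calc (H.card : ℝ) = ∑ t, ∑ x ∈ H, ω t * lam t x / (∑ u, ω u * lam u x) := e1
    _ = ∑ t, ∑ x ∈ S.filter (fun x => 0 < lam t x), ω t * lam t x / (∑ u, ω u * lam u x) :=
      sum_congr rfl fun t _ => e2 t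
    _ ≤ (univ : Finset τ).card • ((Fintype.card ι : ℝ) + c * H.card) :=
      sum_le_card_nsmul _ _ _ fun t _ => e3 t
    _ = Fintype.card τ * (Fintype.card ι + c * H.card) := by rw [card_univ, nsmul_eq_mul]

/-- the estimate for one component at one place -/
lemma wcomp {L τ ι : Type*} [Field L] [DecidableEq L] [Fintype τ] [DecidableEq τ]
    (w : τ → AbsoluteValue L ℝ) (ω : τ → ℝ) (hω : ∀ t, 0 < ω t) (c : ℝ) (hc : 0 ≤ c)
    (S : Finset L) (hprod : ∀ x ∈ S, ∀ y ∈ S, x ≠ y → 0 ≤ ∑ t, ω t * Real.log (w t (x - y)))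
    (κ : τ → L → ι) (lam : τ → L → ℝ)
    (h1 : ∀ t, ∀ x ∈ S, 0 ≤ lam t x)
    (h2 : ∀ t, ∀ x ∈ S, ∀ y ∈ S, κ t x = κ t y →
      lam t x = lam t y ∧ (x ≠ y → Real.log (w t (x - y)) ≤ -lam t x))
    (h7 : ∀ t, ∀ X : Finset L, X ⊆ S → ∀ μ : L → ℝ, (∀ x ∈ X, 0 ≤ μ x) →
      ∑ x ∈ X, ∑ y ∈ X.erase x, μ x * μ y * Real.log (w t (x - y)) ≤
        ∑ x ∈ X, μ x ^ 2 * lam t x + c * (∑ x ∈ X, μ x) * ∑ x ∈ X, μ x * lam t x)
    (t₀ : τ) (X : Finset L) (hXS : X ⊆ S) (hXpos : ∀ x ∈ X, 0 < lam t₀ x)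
    (hXκ : ∀ x ∈ X, ∀ y ∈ X, κ t₀ x = κ t₀ y) :
    ∑ x ∈ X, ω t₀ * lam t₀ x / (∑ u, ω u * lam u x) ≤ 1 + c * X.card := by
  classical
  rcases X.eq_empty_or_nonempty with rfl | ⟨x₀, hx₀⟩
  · simp
  set ell : L → ℝ := fun x => ∑ u, ω u * lam u x with hell
  have hellpos : ∀ x ∈ X, 0 < ell x := by
    intro x hx
    exact sum_pos' (fun u _ => mul_nonneg (hω u).le (h1 u x (hXS hx)))
      ⟨t₀, mem_univ _, mul_pos (hω t₀) (hXpos x hx)⟩
  set μ : L → ℝ := fun x => (ell x)⁻¹ with hμ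
  have hμ0 : ∀ x ∈ X, 0 < μ x := fun x hx => inv_pos.2 (hellpos x hx)
  have hμell : ∀ x ∈ X, μ x * ell x = 1 := fun x hx => inv_mul_cancel₀ (hellpos x hx).ne'
  set Λ := lam t₀ x₀ with hΛ
  have hlam : ∀ x ∈ X, lam t₀ x = Λ := fun x hx =>
    (h2 t₀ x (hXS hx) x₀ (hXS hx₀) (hXκ x hx x₀ hx₀)).1
  have hΛ0 : 0 < Λ := hXpos x₀ hx₀
  set M := ∑ x ∈ X, μ x with hM
  set Q2 := ∑ x ∈ X, μ x ^ 2 with hQ2
  set N : ℝ := (X.card : ℝ) with hN
  have hMpos : 0 < M := sum_pos hμ0 ⟨x₀, hx₀⟩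
  have e0 : ∑ x ∈ X, ∑ y ∈ X.erase x, μ x * μ y * Real.log (w t₀ (x - y)) ≤
      -Λ * (M ^ 2 - Q2) := by
    have h3 : ∑ x ∈ X, ∑ y ∈ X.erase x, μ x * μ y * Real.log (w t₀ (x - y)) ≤
        ∑ x ∈ X, ∑ y ∈ X.erase x, μ x * μ y * (-Λ) := by
      refine sum_le_sum fun x hx => sum_le_sum fun y hy => ?_
      obtain ⟨hy1, hy2⟩ := mem_erase.1 hy
      refine mul_le_mul_of_nonneg_left ?_ (mul_pos (hμ0 x hx) (hμ0 y hy2)).le
      have h4 := (h2 t₀ x (hXS hx) y (hXS hy2) (hXκ x hx y hy2)).2 hy1.symm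
      rwa [hlam x hx] at h4
    refine h3.trans (le_of_eq ?_)
    have h4 : ∀ x ∈ X, ∑ y ∈ X.erase x, μ x * μ y * (-Λ) = -Λ * (μ x * M - μ x ^ 2) := by
      intro x hx
      have h5 := add_sum_erase X (fun y => μ x * μ y * (-Λ)) hx
      have h6 : ∑ y ∈ X, μ x * μ y * (-Λ) = μ x * M * (-Λ) := by
        rw [hM, mul_sum, sum_mul]
      rw [h6] at h5
      linarith
    rw [sum_congr rfl h4, ← mul_sum, sum_sub_distrib, ← sum_mul, ← hM, ← hQ2]
    ring
  set A1 : τ → ℝ := fun t => ∑ x ∈ X, μ x ^ 2 * lam t x with hA1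
  set A2 : τ → ℝ := fun t => ∑ x ∈ X, μ x * lam t x with hA2
  have et : ∀ t, ∑ x ∈ X, ∑ y ∈ X.erase x, μ x * μ y * Real.log (w t (x - y)) ≤
      A1 t + c * M * A2 t := fun t => h7 t X hXS μ fun x hx => (hμ0 x hx).le
  have s1 : ∑ t, ω t * A1 t = M := by
    have : ∀ t, ω t * A1 t = ∑ x ∈ X, μ x ^ 2 * (ω t * lam t x) := fun t => by
      rw [hA1, mul_sum]
      exact sum_congr rfl fun x _ => by ring
    simp_rw [this]
    rw [sum_comm]
    refine sum_congr rfl fun x hx => ?_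
    rw [← mul_sum]
    calc μ x ^ 2 * ell x = μ x * (μ x * ell x) := by ring
      _ = μ x := by rw [hμell x hx, mul_one]
  have s2 : ∑ t, ω t * A2 t = N := by
    have : ∀ t, ω t * A2 t = ∑ x ∈ X, μ x * (ω t * lam t x) := fun t => by
      rw [hA2, mul_sum]
      exact sum_congr rfl fun x _ => by ring
    simp_rw [this]
    rw [sum_comm, hN, card_eq_sum_ones]
    push_cast
    refine sum_congr rfl fun x hx => ?_
    rw [← mul_sum]
    exact hμell x hx
  have a1 : A1 t₀ = Λ * Q2 := by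
    rw [hA1, hQ2, mul_sum]
    exact sum_congr rfl fun x hx => by rw [hlam x hx]; ring
  have a2 : A2 t₀ = Λ * M := by
    rw [hA2, hM, mul_sum]
    exact sum_congr rfl fun x hx => by rw [hlam x hx]; ring
  have hsum : 0 ≤ ∑ t, ω t * ∑ x ∈ X, ∑ y ∈ X.erase x, μ x * μ y * Real.log (w t (x - y)) := by
    have h8 : ∑ t, ω t * ∑ x ∈ X, ∑ y ∈ X.erase x, μ x * μ y * Real.log (w t (x - y)) =
        ∑ x ∈ X, ∑ y ∈ X.erase x, μ x * μ y * ∑ t, ω t * Real.log (w t (x - y)) := by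
      simp_rw [mul_sum]
      rw [sum_comm]
      refine sum_congr rfl fun x _ => ?_
      rw [sum_comm]
      exact sum_congr rfl fun y _ => sum_congr rfl fun t _ => by ring
    rw [h8]
    exact sum_nonneg fun x hx => sum_nonneg fun y hy =>
      mul_nonneg (mul_pos (hμ0 x hx) (hμ0 y (mem_of_mem_erase hy))).le
        (hprod x (hXS hx) y (hXS (mem_of_mem_erase hy)) (ne_of_mem_erase hy).symm)
  rw [← add_sum_erase univ _ (mem_univ t₀)] at hsum
  have h8 : ∑ t ∈ univ.erase t₀, ω t * ∑ x ∈ X, ∑ y ∈ X.erase x,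
      μ x * μ y * Real.log (w t (x - y)) ≤
      (M - ω t₀ * A1 t₀) + c * M * (N - ω t₀ * A2 t₀) := by
    have h9 : ∑ t ∈ univ.erase t₀, ω t * ∑ x ∈ X, ∑ y ∈ X.erase x,
        μ x * μ y * Real.log (w t (x - y)) ≤
        ∑ t ∈ univ.erase t₀, (ω t * A1 t + c * M * (ω t * A2 t)) := by
      refine sum_le_sum fun t _ => ?_
      have := mul_le_mul_of_nonneg_left (et t) (hω t).le
      calc _ ≤ ω t * (A1 t + c * M * A2 t) := this
        _ = _ := by ring
    refine h9.trans (le_of_eq ?_)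
    rw [sum_add_distrib, ← mul_sum]
    have h10 := add_sum_erase univ (fun t => ω t * A1 t) (mem_univ t₀)
    have h11 := add_sum_erase univ (fun t => ω t * A2 t) (mem_univ t₀)
    rw [s1] at h10
    rw [s2] at h11
    have h12 : ∑ x ∈ univ.erase t₀, ω x * A1 x = M - ω t₀ * A1 t₀ := by linarith
    have h13 : ∑ x ∈ univ.erase t₀, ω x * A2 x = N - ω t₀ * A2 t₀ := by linarith
    rw [h12, h13]
  have h9 := mul_le_mul_of_nonneg_left e0 (hω t₀).le
  rw [a1, a2] at h8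
  have h10 : 0 ≤ c * M * (ω t₀ * (Λ * M)) := by
    have := hω t₀
    positivity
  have h11 : M * (ω t₀ * Λ * M) ≤ M * (1 + c * N) := by linarith
  have h12 := le_of_mul_le_mul_left h11 hMpos
  refine le_trans (le_of_eq ?_) h12
  rw [hM, mul_sum]
  refine sum_congr rfl fun x hx => ?_
  rw [hlam x hx]
  rfl

end Pool.Agent.TH737.FE
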