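import Pool.Agent.TH737.FE.Loc2
import Pool.Agent.TH737.FE.Cnt

/-!
# The global estimate
-/

set_option autoImplicit false

namespace Pool.Agent.TH737.FE

open Finset Polynomial

/-- removing clusters -/
theorem remove {L τ ι : Type*} [DecidableEq L] [Fintype τ] [DecidableEq τ] [Fintype ι]
    [DecidableEq ι] (κ : τ → L → ι) (lam : τ → L → ℝ) (ω : τ → ℝ) (S : Finset L) (Q : ℕ)
    (hKL : ∀ H : Finset L, H ⊆ S → ∀ t₀ : τ, ∀ x₀ ∈ H, 0 < lam t₀ x₀ →
      (∀ t, ∀ x ∈ H, ω t * lam t x ≤ ω t₀ * lam t₀ x₀) →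
      (H.filter fun x => κ t₀ x = κ t₀ x₀).card ≤ Q) (hω : ∀ t, 0 < ω t) (n : ℕ) :
    ∀ H : Finset L, H ⊆ S → H.card = n →
      (H.filter fun x => ∃ t, 0 < lam t x).card ≤
        Q * ((univ : Finset (τ × ι)).filter fun p => ∃ x ∈ H, 0 < lam p.1 x ∧ κ p.1 x = p.2).card
      := by
  classical
  induction n using Nat.strong_induction_on with
  | _ n ih =>
    intro H hH hn
    by_cases hex : ∃ t, ∃ x ∈ H, 0 < lam t x
    swap
    · have : H.filter (fun x => ∃ t, 0 < lam t x) = ∅ := by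
        rw [filter_eq_empty_iff]
        rintro x hx ⟨t, ht⟩
        exact hex ⟨t, x, hx, ht⟩
      rw [this]
      simp
    obtain ⟨t₁, x₁, hx₁, h₁⟩ := hex
    obtain ⟨⟨t₀, x₀⟩, hmem, hmax⟩ := exists_max_image ((univ : Finset τ) ×ˢ H)
      (fun p => ω p.1 * lam p.1 p.2) ⟨(t₁, x₁), mem_product.2 ⟨mem_univ _, hx₁⟩⟩
    obtain ⟨-, hx₀⟩ := mem_product.1 hmem
    dsimp only at hx₀ hmax
    have hmax' : ∀ t, ∀ x ∈ H, ω t * lam t x ≤ ω t₀ * lam t₀ x₀ := fun t x hx =>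
      hmax (t, x) (mem_product.2 ⟨mem_univ _, hx⟩)
    have hpos : 0 < lam t₀ x₀ := by
      have h2 := hmax' t₁ x₁ hx₁
      have h3 : 0 < ω t₀ * lam t₀ x₀ := lt_of_lt_of_le (mul_pos (hω t₁) h₁) h2
      exact (mul_pos_iff_of_pos_left (hω t₀)).1 h3
    have hX := hKL H hH t₀ x₀ hx₀ hpos hmax'
    set X := H.filter fun x => κ t₀ x = κ t₀ x₀ with hXdef
    set H' := H.filter fun x => ¬ κ t₀ x = κ t₀ x₀ with hH'def
    have hx₀X : x₀ ∈ X := mem_filter.2 ⟨hx₀, rfl⟩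
    have hXpos : 0 < X.card := card_pos.2 ⟨x₀, hx₀X⟩
    have hcard : X.card + H'.card = H.card := card_filter_add_card_filter_not _
    have hH'H : H' ⊆ H := filter_subset _ _
    have h2 := ih H'.card (by omega) H' (hH'H.trans hH) rfl
    set P := (univ : Finset (τ × ι)).filter fun p => ∃ x ∈ H, 0 < lam p.1 x ∧ κ p.1 x = p.2
      with hP
    set P' := (univ : Finset (τ × ι)).filter fun p => ∃ x ∈ H', 0 < lam p.1 x ∧ κ p.1 x = p.2
      with hP'
    have hPP : P' ⊆ P.erase (t₀, κ t₀ x₀) := by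
      intro p hp
      obtain ⟨-, x, hx, hx1, hx2⟩ := mem_filter.1 hp
      rw [mem_erase]
      refine ⟨?_, mem_filter.2 ⟨mem_univ _, x, hH'H hx, hx1, hx2⟩⟩
      rintro rfl
      exact (mem_filter.1 hx).2 hx2
    have hmemP : (t₀, κ t₀ x₀) ∈ P := mem_filter.2 ⟨mem_univ _, x₀, hx₀, hpos, rfl⟩
    have h3 := card_le_card hPP
    rw [card_erase_of_mem hmemP] at h3
    have h4 : 0 < P.card := card_pos.2 ⟨_, hmemP⟩
    have h5 : (H.filter fun x => ∃ t, 0 < lam t x).card ≤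
        X.card + (H'.filter fun x => ∃ t, 0 < lam t x).card := by
      refine (card_le_card ?_).trans (card_union_le X (H'.filter fun x => ∃ t, 0 < lam t x))
      intro x hx
      obtain ⟨hx1, hx2⟩ := mem_filter.1 hx
      rw [mem_union]
      by_cases h : κ t₀ x = κ t₀ x₀
      · left; exact mem_filter.2 ⟨hx1, h⟩
      · right; exact mem_filter.2 ⟨mem_filter.2 ⟨hx1, h⟩, hx2⟩
    calc (H.filter fun x => ∃ t, 0 < lam t x).card ≤ Q + Q * P'.card := by omega
      _ ≤ Q + Q * (P.card - 1) := by gcongr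
      _ = Q * P.card := by
        obtain ⟨m, hm⟩ : ∃ m, P.card = m + 1 := ⟨P.card - 1, by omega⟩
        rw [hm]
        simp
        ring

/-- **The global estimate.** -/
theorem glob {L τ : Type*} [Field L] [IsAlgClosed L] [DecidableEq L] [Fintype τ] [DecidableEq τ]
    (w : τ → AbsoluteValue L ℝ) (hw : ∀ t, IsNonarchimedean (w t)) (ω : τ → ℝ)
    (hω : ∀ t, 0 < ω t) (d : ℕ) (hd : 3 ≤ d) (G : L[X]) (hG : G.Monic) (hdeg : G.natDegree = d)
    (S : Finset L) (hS : ∀ s ∈ S, G.eval s ∈ S)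
    (hprod : ∀ x ∈ S, ∀ y ∈ S, x ≠ y → 0 ≤ ∑ t, ω t * Real.log (w t (x - y)))
    (hbig : ∃ t, ∃ p ∈ S, ∃ q ∈ S, 1 < w t (p - q)) :
    (2 * Fintype.card τ ≤ d → S.card ≤ 2 * Fintype.card τ ^ 2 * d + 2 * (d - 1)) ∧
      (Fintype.card τ = 1 → S.card ≤ 2 * d - 1) ∧
      (28 * Fintype.card τ ≤ d → S.card ≤ 2 * Fintype.card τ * d + 2 * (d - 1)) := by
  classical
  choose κ lam h1 h2 h3 h4 h5 h6 hwt using fun t => local_est (w t) (hw t) d hd G hG hdeg S hS
  set s := Fintype.card τ with hs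
  have hs1 : 1 ≤ s := by
    obtain ⟨t, -⟩ := hbig
    exact Fintype.card_pos_iff.2 ⟨t⟩
  have hd2 : (0 : ℝ) < (d : ℝ) - 2 := by
    have : (3 : ℝ) ≤ d := by exact_mod_cast hd
    linarith
  -- the key inequality
  have hineq : ∀ H : Finset L, H ⊆ S → ∀ t₀ : τ, ∀ x₀ ∈ H, 0 < lam t₀ x₀ →
      (∀ t, ∀ x ∈ H, ω t * lam t x ≤ ω t₀ * lam t₀ x₀) →
      ((H.filter fun x => κ t₀ x = κ t₀ x₀).card : ℝ) - 1 ≤ ((s : ℝ) - 1) *
        (1 + ((H.filter fun x => κ t₀ x = κ t₀ x₀).card : ℝ) / ((d : ℝ) - 2)) := by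
    intro H hH t₀ x₀ hx₀ hpos hmax
    set X := H.filter fun x => κ t₀ x = κ t₀ x₀ with hX
    have hx₀X : x₀ ∈ X := mem_filter.2 ⟨hx₀, rfl⟩
    have hXS : X ⊆ S := (filter_subset _ _).trans hH
    have hXH : X ⊆ H := filter_subset _ _
    set N : ℝ := (X.card : ℝ) with hN
    have hN1 : 1 ≤ N := by
      rw [hN]
      exact_mod_cast card_pos.2 ⟨x₀, hx₀X⟩
    set Λ := ω t₀ * lam t₀ x₀ with hΛ
    have hΛ0 : 0 < Λ := mul_pos (hω t₀) hpos
    have hlam : ∀ x ∈ X, lam t₀ x = lam t₀ x₀ := fun x hx =>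
      (h2 t₀ x (hXS hx) x₀ (hH hx₀) (mem_filter.1 hx).2).1
    have e0 : ∑ x ∈ X, ∑ y ∈ X.erase x, Real.log (w t₀ (x - y)) ≤
        N * ((N - 1) * (-lam t₀ x₀)) := by
      have : ∀ x ∈ X, ∑ y ∈ X.erase x, Real.log (w t₀ (x - y)) ≤
          (N - 1) * (-lam t₀ x₀) := by
        intro x hx
        have h7 : ∀ y ∈ X.erase x, Real.log (w t₀ (x - y)) ≤ -lam t₀ x₀ := by
          intro y hy
          obtain ⟨hy1, hy2⟩ := mem_erase.1 hy
          have h8 := (h2 t₀ x (hXS hx) y (hXS hy2)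
            ((mem_filter.1 hx).2.trans (mem_filter.1 hy2).2.symm)).2 hy1.symm
          rwa [hlam x hx] at h8
        have h8 := sum_le_card_nsmul _ _ _ h7
        rw [card_erase_of_mem hx, nsmul_eq_mul, Nat.cast_sub (card_pos.2 ⟨x, hx⟩)] at h8
        simpa using h8
      have h9 := sum_le_card_nsmul _ _ _ this
      rwa [nsmul_eq_mul] at h9
    have et : ∀ t, t ≠ t₀ → ω t * ∑ x ∈ X, ∑ y ∈ X.erase x, Real.log (w t (x - y)) ≤
        N * Λ + N ^ 2 * Λ / ((d : ℝ) - 2) := by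
      intro t _
      have h7 := h3 t X hXS (Λ / ω t) (div_nonneg hΛ0.le (hω t).le) (fun x hx => by
        rw [le_div_iff₀ (hω t), mul_comm]
        exact hmax t x (hXH hx))
      have h8 := mul_le_mul_of_nonneg_left h7 (hω t).le
      refine h8.trans (le_of_eq ?_)
      have := (hω t).ne'
      rw [← hN]
      field_simp
    have hsum : 0 ≤ ∑ t, ω t * ∑ x ∈ X, ∑ y ∈ X.erase x, Real.log (w t (x - y)) := by
      have h7 : ∑ t, ω t * ∑ x ∈ X, ∑ y ∈ X.erase x, Real.log (w t (x - y)) =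
          ∑ x ∈ X, ∑ y ∈ X.erase x, ∑ t, ω t * Real.log (w t (x - y)) := by
        simp_rw [mul_sum]
        rw [sum_comm]
        refine sum_congr rfl fun x _ => ?_
        rw [sum_comm]
      rw [h7]
      exact sum_nonneg fun x hx => sum_nonneg fun y hy =>
        hprod x (hXS hx) y (hXS (mem_of_mem_erase hy)) (ne_of_mem_erase hy).symm
    rw [← add_sum_erase univ _ (mem_univ t₀)] at hsum
    have h7 : ∑ t ∈ univ.erase t₀, ω t * ∑ x ∈ X, ∑ y ∈ X.erase x, Real.log (w t (x - y)) ≤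
        ((s : ℝ) - 1) * (N * Λ + N ^ 2 * Λ / ((d : ℝ) - 2)) := by
      have h8 := sum_le_card_nsmul (univ.erase t₀) _ _ (fun t ht => et t (ne_of_mem_erase ht))
      rw [card_erase_of_mem (mem_univ t₀), card_univ, ← hs, nsmul_eq_mul, Nat.cast_sub hs1] at h8
      simpa using h8
    have h8 : ω t₀ * ∑ x ∈ X, ∑ y ∈ X.erase x, Real.log (w t₀ (x - y)) ≤
        -(N * (N - 1) * Λ) := by
      have := mul_le_mul_of_nonneg_left e0 (hω t₀).le
      refine this.trans (le_of_eq ?_)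
      rw [hΛ]; ring
    have h9 : N * (N - 1) * Λ ≤ ((s : ℝ) - 1) * (N * Λ + N ^ 2 * Λ / ((d : ℝ) - 2)) := by
      linarith
    have h10 : (N * Λ) * (N - 1) ≤ (N * Λ) * (((s : ℝ) - 1) * (1 + N / ((d : ℝ) - 2))) := by
      calc (N * Λ) * (N - 1) = N * (N - 1) * Λ := by ring
        _ ≤ _ := h9
        _ = _ := by ring
    exact le_of_mul_le_mul_left h10 (by positivity)
  -- the central points
  set S0 := S.filter fun x => ∀ t, lam t x = 0 with hS0
  have hS0card : S0.card ≤ 2 * (d - 1) := by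
    obtain ⟨t₀, p, hp, q, hq, hpq⟩ := hbig
    refine h5 t₀ ⟨p, hp, q, hq, hpq⟩ S0 (filter_subset _ _) (fun x hx => (mem_filter.1 hx).2 t₀) ?_
    intro x hx y hy hxy
    obtain ⟨hxS, hx0⟩ := mem_filter.1 hx
    obtain ⟨hyS, hy0⟩ := mem_filter.1 hy
    have h7 : ∀ t, w t (x - y) ≤ 1 := fun t => h4 t x hxS y hyS (hx0 t) (hy0 t)
    have h8 : ∀ t ∈ (univ : Finset τ), ω t * Real.log (w t (x - y)) ≤ 0 := fun t _ =>
      mul_nonpos_of_nonneg_of_nonpos (hω t).le (Real.log_nonpos ((w t).nonneg _) (h7 t))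
    have h9 := hprod x hxS y hyS hxy
    have h10 := (sum_eq_zero_iff_of_nonpos h8).1 (le_antisymm (sum_nonpos h8) h9) t₀ (mem_univ _)
    have h11 : Real.log (w t₀ (x - y)) = 0 := by
      rcases mul_eq_zero.1 h10 with h | h
      · exact absurd h (hω t₀).ne'
      · exact h
    exact Real.eq_one_of_pos_of_log_eq_zero ((w t₀).pos (sub_ne_zero.2 hxy)) h11
  have hsplit : S.card ≤ S0.card + (S.filter fun x => ∃ t, 0 < lam t x).card := by
    refine (card_le_card ?_).trans (card_union_le S0 (S.filter fun x => ∃ t, 0 < lam t x))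
    intro x hx
    rw [mem_union]
    by_cases h : ∃ t, 0 < lam t x
    · right; exact mem_filter.2 ⟨hx, h⟩
    · left
      push Not at h
      exact mem_filter.2 ⟨hx, fun t => le_antisymm (h t) (h1 t x hx)⟩
  refine ⟨?_, ?_, ?_⟩
  · intro h2s
    have hKL : ∀ H : Finset L, H ⊆ S → ∀ t₀ : τ, ∀ x₀ ∈ H, 0 < lam t₀ x₀ →
        (∀ t, ∀ x ∈ H, ω t * lam t x ≤ ω t₀ * lam t₀ x₀) →
        (H.filter fun x => κ t₀ x = κ t₀ x₀).card ≤ 2 * s := by
      intro H hH t₀ x₀ hx₀ hpos hmax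
      have h7 := hineq H hH t₀ x₀ hx₀ hpos hmax
      set N : ℝ := ((H.filter fun x => κ t₀ x = κ t₀ x₀).card : ℝ) with hN
      have hN0 : 0 ≤ N := by rw [hN]; positivity
      have h8 : (2 : ℝ) * s ≤ d := by exact_mod_cast h2s
      have h9 : ((s : ℝ) - 1) * (N / ((d : ℝ) - 2)) ≤ N / 2 := by
        rw [← mul_div_assoc, div_le_div_iff₀ hd2 (by norm_num)]
        nlinarith
      have h10 : N ≤ 2 * s := by nlinarith
      rw [hN] at h10
      exact_mod_cast h10
    have h7 := remove κ lam ω S (2 * s) hKL hω S.card S subset_rfl rfl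
    have h8 : ((univ : Finset (τ × Fin d)).filter
        fun p => ∃ x ∈ S, 0 < lam p.1 x ∧ κ p.1 x = p.2).card ≤ s * d := by
      refine (card_le_univ _).trans (le_of_eq ?_)
      rw [Fintype.card_prod, Fintype.card_fin]
    have h9 : 2 * s * (s * d) = 2 * s ^ 2 * d := by ring
    have h10 := h7.trans (Nat.mul_le_mul_left (2 * s) h8)
    rw [h9] at h10
    omega
  · intro hs'
    have hKL : ∀ H : Finset L, H ⊆ S → ∀ t₀ : τ, ∀ x₀ ∈ H, 0 < lam t₀ x₀ →
        (∀ t, ∀ x ∈ H, ω t * lam t x ≤ ω t₀ * lam t₀ x₀) →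
        (H.filter fun x => κ t₀ x = κ t₀ x₀).card ≤ 1 := by
      intro H hH t₀ x₀ hx₀ hpos hmax
      have h7 := hineq H hH t₀ x₀ hx₀ hpos hmax
      rw [hs'] at h7
      simp only [Nat.cast_one, sub_self, zero_mul] at h7
      have h8 : ((H.filter fun x => κ t₀ x = κ t₀ x₀).card : ℝ) ≤ 1 := by linarith
      exact_mod_cast h8
    have h7 := remove κ lam ω S 1 hKL hω S.card S subset_rfl rfl
    rw [one_mul] at h7
    rcases S0.eq_empty_or_nonempty with h0 | ⟨x0, hx0⟩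
    · have h8 : ((univ : Finset (τ × Fin d)).filter
          fun p => ∃ x ∈ S, 0 < lam p.1 x ∧ κ p.1 x = p.2).card ≤ s * d := by
        refine (card_le_univ _).trans (le_of_eq ?_)
        rw [Fintype.card_prod, Fintype.card_fin]
      rw [hs', one_mul] at h8
      rw [h0, card_empty] at hsplit
      omega
    · have h8 : ((univ : Finset (τ × Fin d)).filter
          fun p => ∃ x ∈ S, 0 < lam p.1 x ∧ κ p.1 x = p.2).card ≤ 1 := by
        rw [card_le_one]
        intro a ha b hb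
        obtain ⟨-, x, hx, hx1, hx2⟩ := mem_filter.1 ha
        obtain ⟨-, y, hy, hy1, hy2⟩ := mem_filter.1 hb
        have hsub : a.1 = b.1 := (Fintype.card_le_one_iff.1 (by rw [← hs, hs'])) a.1 b.1
        obtain ⟨hx0S, hx00⟩ := mem_filter.1 hx0
        rw [← hsub] at hy1 hy2
        have h9 := h6 a.1 ⟨x0, hx0S, hx00 a.1⟩ x hx y hy hx1 hy1
        exact Prod.ext hsub (by rw [← hx2, ← hy2, h9])
      omega
  · intro h28
    have hd0 : (0 : ℝ) < d := by linarith
    have hcount := wcount κ lam ω S hω h1 (14 / d) (by positivity) (fun t j =>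
      wcomp w ω hω (14 / d) (by positivity) S hprod κ lam h1 h2 hwt t _
        (fun x hx => (mem_filter.1 (mem_filter.1 hx).1).1)
        (fun x hx => (mem_filter.1 (mem_filter.1 hx).1).2)
        (fun x hx y hy => (mem_filter.1 hx).2.trans (mem_filter.1 hy).2.symm))
    rw [Fintype.card_fin, ← hs] at hcount
    set n : ℝ := ((S.filter fun x => ∃ t, 0 < lam t x).card : ℝ) with hn
    have hn0 : 0 ≤ n := by rw [hn]; positivity
    have h8 : (28 : ℝ) * s ≤ d := by exact_mod_cast h28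
    have h9 : (s : ℝ) * (14 / d * n) ≤ n / 2 := by
      have e : (s : ℝ) * (14 / d * n) = (14 * s * n) / d := by ring
      rw [e, div_le_div_iff₀ hd0 (by norm_num)]
      nlinarith
    have h10 : n ≤ 2 * s * d := by
      have e : (s : ℝ) * ((d : ℝ) + 14 / d * n) = s * d + s * (14 / d * n) := by ring
      rw [e] at hcount
      linarith
    have h11 : (S.filter fun x => ∃ t, 0 < lam t x).card ≤ 2 * s * d := by
      rw [hn] at h10
      exact_mod_cast h10
    omega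

end Pool.Agent.TH737.FE
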