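import Mathlib

/-!
# Ultrametric kernels are conditionally negative definite
-/

set_option autoImplicit false

namespace Pool.Agent.TH737.FE

open Finset

/-- An ultrametric kernel is conditionally negative definite. -/
theorem kernel_neg {ι : Type*} [DecidableEq ι] (n : ℕ) : ∀ (s : Finset ι), s.card = n →
    ∀ (k : ι → ι → ℝ), (∀ a b, k a b = k b a) →
    (∀ a ∈ s, ∀ b ∈ s, ∀ c ∈ s, k a c ≤ max (k a b) (k b c)) →
    ∀ ν : ι → ℝ, ∑ a ∈ s, ν a = 0 → ∑ a ∈ s, ∑ b ∈ s, ν a * ν b * k a b ≤ 0 := by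
  induction n with
  | zero =>
    intro s hs k _ _ ν _
    rw [card_eq_zero] at hs
    subst hs
    simp
  | succ n ih =>
    intro s hs k hsymm htri ν hν
    by_cases hn : n = 0
    · subst hn
      obtain ⟨a, rfl⟩ := card_eq_one.1 (by simpa using hs)
      rw [sum_singleton] at hν
      simp [hν]
    have h2 : 1 < s.card := by omega
    obtain ⟨a0, ha0, b0, hb0, hab0⟩ := one_lt_card.1 h2
    have hne : s.offDiag.Nonempty := ⟨(a0, b0), mem_offDiag.2 ⟨ha0, hb0, hab0⟩⟩
    obtain ⟨⟨x, y⟩, hxy, hmin⟩ := exists_min_image s.offDiag (fun p => k p.1 p.2) hne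
    obtain ⟨hx, hy, hne'⟩ := mem_offDiag.1 hxy
    dsimp only at hx hy hne' hmin
    set m := k x y with hm
    have hmin' : ∀ a ∈ s, ∀ b ∈ s, a ≠ b → m ≤ k a b := fun a ha b hb hab =>
      hmin (a, b) (mem_offDiag.2 ⟨ha, hb, hab⟩)
    have hxx : k x x ≤ m := by
      have := htri x hx y hy x hx
      rwa [hsymm y x, max_self] at this
    have hyy : k y y ≤ m := by
      have := htri y hy x hx y hy
      rwa [hsymm y x, max_self] at this
    have heq : ∀ z ∈ s, z ≠ x → z ≠ y → k z y = k z x := by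
      intro z hz hzx hzy
      have h1 := htri z hz x hx y hy
      have h2 := htri z hz y hy x hx
      rw [hsymm y x] at h2
      have h3 := hmin' z hz x hx hzx
      have h4 := hmin' z hz y hy hzy
      rw [max_eq_left h3] at h1
      rw [max_eq_left h4] at h2
      exact le_antisymm h1 h2
    -- the merged kernel
    set k' : ι → ι → ℝ := fun a b => if a = x ∧ b = x then m else k a b with hk'
    set ν' : ι → ℝ := fun a => if a = x then ν x + ν y else ν a with hν'
    have hkk' : ∀ a b, k a b ≤ k' a b := by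
      intro a b
      rw [hk']
      dsimp only
      split_ifs with h
      · rw [h.1, h.2]; exact hxx
      · exact le_rfl
    have hxs' : x ∈ s.erase y := mem_erase.2 ⟨hne', hx⟩
    have hsym' : ∀ a b, k' a b = k' b a := by
      intro a b
      rw [hk']
      dsimp only
      by_cases h : a = x ∧ b = x
      · rw [if_pos h, if_pos h.symm]
      · rw [if_neg h, if_neg (fun h' => h h'.symm), hsymm]
    have htri' : ∀ a ∈ s.erase y, ∀ b ∈ s.erase y, ∀ c ∈ s.erase y,
        k' a c ≤ max (k' a b) (k' b c) := by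
      intro a ha b hb c hc
      have ha' := mem_of_mem_erase ha
      have hb' := mem_of_mem_erase hb
      have hc' := mem_of_mem_erase hc
      by_cases h : a = x ∧ c = x
      · have h1 : k' a c = m := by rw [hk']; exact if_pos h
        rw [h1]
        by_cases hbx : b = x
        · have h2 : k' a b = m := by rw [hk']; exact if_pos ⟨h.1, hbx⟩
          rw [h2]
          exact le_max_left _ _
        · refine le_trans ?_ (le_max_left _ _)
          refine le_trans ?_ (hkk' a b)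
          rw [h.1]
          exact hmin' x hx b hb' (Ne.symm hbx)
      · have h1 : k' a c = k a c := by rw [hk']; exact if_neg h
        rw [h1]
        exact (htri a ha' b hb' c hc').trans (max_le_max (hkk' a b) (hkk' b c))
    have hsplit : ∀ g : ι → ℝ, ∑ a ∈ s, g a = g y + (g x + ∑ a ∈ (s.erase y).erase x, g a) := by
      intro g
      rw [← add_sum_erase s g hy, ← add_sum_erase (s.erase y) g hxs']
    have hsplit' : ∀ g : ι → ℝ, ∑ a ∈ s.erase y, g a = g x + ∑ a ∈ (s.erase y).erase x, g a := by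
      intro g
      rw [← add_sum_erase (s.erase y) g hxs']
    have hνsum : ∑ a ∈ s.erase y, ν' a = 0 := by
      rw [hsplit' ν']
      rw [hsplit ν] at hν
      have h1 : ν' x = ν x + ν y := by rw [hν']; exact if_pos rfl
      have h2 : ∑ a ∈ (s.erase y).erase x, ν' a = ∑ a ∈ (s.erase y).erase x, ν a := by
        refine sum_congr rfl fun a ha => ?_
        rw [hν']; exact if_neg (ne_of_mem_erase ha)
      rw [h1, h2]
      linarith
    have hcard : (s.erase y).card = n := by rw [card_erase_of_mem hy]; omega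
    have hmain := ih (s.erase y) hcard k' hsym' htri' ν' hνsum
    -- compare
    set R := (s.erase y).erase x with hR
    have hRx : ∀ a ∈ R, a ≠ x := fun a ha => ne_of_mem_erase ha
    have hRy : ∀ a ∈ R, a ≠ y := fun a ha => ne_of_mem_erase (mem_of_mem_erase ha)
    have hRs : ∀ a ∈ R, a ∈ s := fun a ha => mem_of_mem_erase (mem_of_mem_erase ha)
    have e1 : ∑ a ∈ s.erase y, ∑ b ∈ s.erase y, ν' a * ν' b * k' a b =
        (ν x + ν y) ^ 2 * m + 2 * ∑ a ∈ R, ν a * (ν x + ν y) * k a x +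
          ∑ a ∈ R, ∑ b ∈ R, ν a * ν b * k a b := by
      have hx1 : ν' x = ν x + ν y := by rw [hν']; exact if_pos rfl
      have hR1 : ∀ a ∈ R, ν' a = ν a := fun a ha => by rw [hν']; exact if_neg (hRx a ha)
      have hk1 : k' x x = m := by rw [hk']; exact if_pos ⟨rfl, rfl⟩
      have hk2 : ∀ a ∈ R, ∀ b, k' a b = k a b := fun a ha b => by
        rw [hk']; exact if_neg fun h => hRx a ha h.1
      have hk3 : ∀ a ∈ R, k' x a = k a x := fun a ha => by
        rw [hsym' x a, hk2 a ha]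
      rw [hsplit']
      have h1 : ∑ b ∈ s.erase y, ν' x * ν' b * k' x b =
          (ν x + ν y) ^ 2 * m + ∑ a ∈ R, ν a * (ν x + ν y) * k a x := by
        rw [hsplit', hx1, hk1]
        congr 1
        · ring
        · refine sum_congr rfl fun a ha => ?_
          rw [hR1 a ha, hk3 a ha]; ring
      have h2 : ∑ a ∈ R, ∑ b ∈ s.erase y, ν' a * ν' b * k' a b =
          ∑ a ∈ R, ν a * (ν x + ν y) * k a x + ∑ a ∈ R, ∑ b ∈ R, ν a * ν b * k a b := by
        rw [← sum_add_distrib]
        refine sum_congr rfl fun a ha => ?_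
        rw [hsplit', hx1, hR1 a ha, hk2 a ha]
        congr 1
        refine sum_congr rfl fun b hb => ?_
        rw [hR1 b hb, hk2 a ha]
      rw [h1, h2]
      ring
    have e2 : ∑ a ∈ s, ∑ b ∈ s, ν a * ν b * k a b =
        ν x ^ 2 * k x x + ν y ^ 2 * k y y + 2 * ν x * ν y * m +
          2 * ∑ a ∈ R, ν a * (ν x + ν y) * k a x + ∑ a ∈ R, ∑ b ∈ R, ν a * ν b * k a b := by
      rw [hsplit]
      have h1 : ∑ b ∈ s, ν y * ν b * k y b =
          ν y ^ 2 * k y y + ν x * ν y * m + ν y * ∑ a ∈ R, ν a * k a x := by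
        rw [hsplit, hsymm y x, mul_sum]
        have : ∑ a ∈ R, ν y * ν a * k y a = ∑ a ∈ R, ν y * (ν a * k a x) := by
          refine sum_congr rfl fun a ha => ?_
          rw [hsymm y a, heq a (hRs a ha) (hRx a ha) (hRy a ha)]; ring
        rw [this]
        ring
      have h2 : ∑ b ∈ s, ν x * ν b * k x b =
          ν x * ν y * m + ν x ^ 2 * k x x + ν x * ∑ a ∈ R, ν a * k a x := by
        rw [hsplit, mul_sum]
        have : ∑ a ∈ R, ν x * ν a * k x a = ∑ a ∈ R, ν x * (ν a * k a x) := by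
          refine sum_congr rfl fun a ha => ?_
          rw [hsymm x a]; ring
        rw [this]
        ring
      have h3 : ∑ a ∈ R, ∑ b ∈ s, ν a * ν b * k a b =
          (ν x + ν y) * ∑ a ∈ R, ν a * k a x + ∑ a ∈ R, ∑ b ∈ R, ν a * ν b * k a b := by
        rw [mul_sum, ← sum_add_distrib]
        refine sum_congr rfl fun a ha => ?_
        rw [hsplit, heq a (hRs a ha) (hRx a ha) (hRy a ha)]
        ring
      have h4 : ∑ a ∈ R, ν a * (ν x + ν y) * k a x = (ν x + ν y) * ∑ a ∈ R, ν a * k a x := by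
        rw [mul_sum]
        exact sum_congr rfl fun a _ => by ring
      rw [h1, h2, h3, h4]
      ring
    rw [e1] at hmain
    rw [e2]
    nlinarith [mul_nonneg (sq_nonneg (ν x)) (sub_nonneg.2 hxx),
      mul_nonneg (sq_nonneg (ν y)) (sub_nonneg.2 hyy)]

/-- The energy inequality. -/
theorem energyW {α β : Type*} [DecidableEq α] [DecidableEq β] (X : Finset α) (R : Finset β)
    (hR : R.Nonempty) (k : α ⊕ β → α ⊕ β → ℝ) (hsymm : ∀ a b, k a b = k b a)
    (htri : ∀ a b c, k a c ≤ max (k a b) (k b c)) (c : ℝ) (μ : α → ℝ)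
    (hX : ∀ x ∈ X, ∑ ρ ∈ R, k (Sum.inl x) (Sum.inr ρ) = c)
    (hRR : ∀ r ∈ R, ∑ ρ ∈ R, k (Sum.inr r) (Sum.inr ρ) = c) :
    ∑ x ∈ X, ∑ y ∈ X, μ x * μ y * k (Sum.inl x) (Sum.inl y) ≤
      (∑ x ∈ X, μ x) ^ 2 * c / R.card := by
  classical
  have hd : (0 : ℝ) < R.card := by exact_mod_cast card_pos.2 hR
  set N : ℝ := ∑ x ∈ X, μ x with hN
  set ν : α ⊕ β → ℝ := Sum.elim μ (fun _ => -(N / R.card)) with hν
  have hs : ∀ g : α ⊕ β → ℝ, ∑ a ∈ X.disjSum R, g a =
      ∑ x ∈ X, g (Sum.inl x) + ∑ ρ ∈ R, g (Sum.inr ρ) := fun g => by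
    rw [sum_disjSum]
  have h1 := kernel_neg _ (X.disjSum R) rfl k hsymm (fun a _ b _ c _ => htri a b c) ν (by
    rw [hs, hν]
    simp only [Sum.elim_inl, Sum.elim_inr, sum_const, nsmul_eq_mul]
    rw [← hN]
    field_simp
    ring)
  simp only [hs] at h1
  simp only [hν, Sum.elim_inl, Sum.elim_inr] at h1
  rw [sum_add_distrib, sum_add_distrib] at h1
  have e1 : ∑ x ∈ X, ∑ ρ ∈ R, μ x * (-(N / R.card)) * k (Sum.inl x) (Sum.inr ρ) =
      -(N / R.card) * (N * c) := by
    rw [sum_congr rfl fun x hx => by rw [← mul_sum, hX x hx], ← sum_mul, ← sum_mul, ← hN]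
    ring
  have e2 : ∑ r ∈ R, ∑ x ∈ X, (-(N / R.card)) * μ x * k (Sum.inr r) (Sum.inl x) =
      -(N / R.card) * (N * c) := by
    rw [sum_comm, ← e1]
    refine sum_congr rfl fun x _ => sum_congr rfl fun r _ => ?_
    rw [hsymm]; ring
  have e3 : ∑ r ∈ R, ∑ ρ ∈ R, (-(N / R.card)) * (-(N / R.card)) * k (Sum.inr r) (Sum.inr ρ) =
      (N / R.card) ^ 2 * (R.card * c) := by
    rw [sum_congr rfl fun r hr => by rw [← mul_sum, hRR r hr], sum_const, nsmul_eq_mul]
    ring
  rw [e1, e2, e3] at h1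
  have e4 : -(N / R.card) * (N * c) + (-(N / R.card) * (N * c) + (N / R.card) ^ 2 * (R.card * c)) =
      -(N ^ 2 * c / R.card) := by
    field_simp
    ring
  linarith

/-- The energy inequality, without weights. -/
theorem energy {α β : Type*} [DecidableEq α] [DecidableEq β] (X : Finset α) (R : Finset β)
    (hR : R.Nonempty) (k : α ⊕ β → α ⊕ β → ℝ) (hsymm : ∀ a b, k a b = k b a)
    (htri : ∀ a b c, k a c ≤ max (k a b) (k b c)) (c : ℝ)
    (hX : ∀ x ∈ X, ∑ ρ ∈ R, k (Sum.inl x) (Sum.inr ρ) = c)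
    (hRR : ∀ r ∈ R, ∑ ρ ∈ R, k (Sum.inr r) (Sum.inr ρ) = c) :
    ∑ x ∈ X, ∑ y ∈ X, k (Sum.inl x) (Sum.inl y) ≤ (X.card : ℝ) ^ 2 * c / R.card := by
  have h := energyW X R hR k hsymm htri c (fun _ => 1) hX hRR
  simpa using h

end Pool.Agent.TH737.FE
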