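import Pool.Agent.TH737.FE.Rad

/-!
# The local estimates
-/

set_option autoImplicit false

namespace Pool.Agent.TH737.FE

open Finset Polynomial

variable {L : Type*} [Field L] {d : ℕ} {w : AbsoluteValue L ℝ} {ρ : Fin d → L} {D : ℝ}

lemma half_est (hd : 3 ≤ d) (hD : 1 < D) {p : L} (h : ∃ r, IsRad w ρ D p r) (Λ : ℝ)
    (hΛ : -Real.log (rad w ρ D p) ≤ Λ) (hΛ0 : 0 ≤ Λ)
    (hB : 2 * (univ.filter fun i => w (p - ρ i) < D).card ≤ d) :
    ((d : ℝ) - 2) * Real.log D ≤ d * Λ := by
  classical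
  obtain ⟨h1, h2, -⟩ := rad_spec h
  set r := rad w ρ D p with hr
  set B := univ.filter fun i => w (p - ρ i) < D with hBdef
  have hD0 : 0 < D := by linarith
  have hL : 0 < Real.log D := Real.log_pos hD
  have hsum : ∑ i, Real.log (max (w (p - ρ i)) r) = Real.log D := by
    rw [← Real.log_prod (fun i _ => (lt_max_of_lt_right h1).ne'), h2]
  rw [← sum_filter_add_sum_filter_not univ (fun i => w (p - ρ i) < D)] at hsum
  have h3 : (B.card : ℝ) * Real.log r ≤ ∑ i ∈ univ.filter (fun i => w (p - ρ i) < D),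
      Real.log (max (w (p - ρ i)) r) := by
    rw [← nsmul_eq_mul]
    refine card_nsmul_le_sum _ _ _ fun i _ => ?_
    exact Real.log_le_log h1 (le_max_right _ _)
  have h4 : ((univ.filter (fun i => ¬ w (p - ρ i) < D)).card : ℝ) * Real.log D ≤
      ∑ i ∈ univ.filter (fun i => ¬ w (p - ρ i) < D), Real.log (max (w (p - ρ i)) r) := by
    rw [← nsmul_eq_mul]
    refine card_nsmul_le_sum _ _ _ fun i hi => ?_
    exact Real.log_le_log hD0 ((not_lt.1 (mem_filter.1 hi).2).trans (le_max_left _ _))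
  have h5 : B.card + (univ.filter (fun i => ¬ w (p - ρ i) < D)).card = d := by
    have := card_filter_add_card_filter_not (s := (univ : Finset (Fin d)))
      (fun i => w (p - ρ i) < D)
    rwa [card_univ, Fintype.card_fin] at this
  have h5' : (B.card : ℝ) + ((univ.filter (fun i => ¬ w (p - ρ i) < D)).card : ℝ) = d := by
    exact_mod_cast h5
  set a : ℝ := (B.card : ℝ) with ha
  set b : ℝ := ((univ.filter (fun i => ¬ w (p - ρ i) < D)).card : ℝ) with hb
  have ha0 : 0 ≤ a := by rw [ha]; positivity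
  have ha2 : 2 * a ≤ d := by rw [ha]; exact_mod_cast hB
  have hbe : b = d - a := by linarith
  rw [hbe] at h4
  have h6 : (d - a - 1) * Real.log D ≤ a * (-Real.log r) := by linarith
  have h7 : a * (-Real.log r) ≤ a * Λ := mul_le_mul_of_nonneg_left hΛ ha0
  nlinarith [mul_nonneg (sub_nonneg.2 ha2) hL.le, mul_nonneg (sub_nonneg.2 ha2) hΛ0]

/-- The energy estimate. -/
theorem energy_est (hw : IsNonarchimedean w) (hd : 3 ≤ d) (hD : 1 < D) (S : Finset L)
    [DecidableEq L]
    (hdom : ∀ u ∈ S, ∃ r, IsRad w ρ D u r) (hfar : ∀ u ∈ S, ∃ i, D ≤ w (u - ρ i))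
    (X : Finset L) (hX : X ⊆ S) (Λ : ℝ) (hΛ0 : 0 ≤ Λ)
    (hΛ : ∀ x ∈ X, -Real.log (rad w ρ D x) ≤ Λ) :
    ∑ x ∈ X, ∑ y ∈ X.erase x, Real.log (w (x - y)) ≤
      X.card * Λ + (X.card : ℝ) ^ 2 * Λ / ((d : ℝ) - 2) := by
  have hD0 : 0 < D := by linarith
  have hd2 : (0 : ℝ) < (d : ℝ) - 2 := by
    have : (3 : ℝ) ≤ d := by exact_mod_cast hd
    linarith
  have hL : 0 < Real.log D := Real.log_pos hD
  rcases X.eq_empty_or_nonempty with rfl | hXne
  · simp
  have hRadLe : ∀ u ∈ S, rad w ρ D u ≤ 1 := fun u hu =>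
    rad_le_one (by omega) hD (hdom u hu) (hfar u hu)
  set k0 : L → L → ℝ := fun x y => ker w ρ D (Sum.inl x) (Sum.inl y) with hk0
  have hk0' : ∀ x y, k0 x y = Real.log (max (w (x - y)) (max (rad w ρ D x) (rad w ρ D y))) :=
    fun x y => rfl
  have h1 : ∑ x ∈ X, ∑ y ∈ X.erase x, Real.log (w (x - y)) ≤
      ∑ x ∈ X, ∑ y ∈ X.erase x, k0 x y := by
    refine sum_le_sum fun x _ => sum_le_sum fun y hy => ?_
    rw [hk0']
    exact Real.log_le_log (w.pos (sub_ne_zero.2 (ne_of_mem_erase hy).symm)) (le_max_left _ _)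
  have h2 : ∑ x ∈ X, ∑ y ∈ X.erase x, k0 x y =
      ∑ x ∈ X, ∑ y ∈ X, k0 x y - ∑ x ∈ X, Real.log (rad w ρ D x) := by
    rw [← sum_sub_distrib]
    refine sum_congr rfl fun x hx => ?_
    rw [← add_sum_erase X (fun y => k0 x y) hx]
    have : k0 x x = Real.log (rad w ρ D x) := by
      rw [hk0', sub_self, map_zero, max_self, max_eq_right (rad_pos x).le]
    rw [this]
    ring
  have h3 : -∑ x ∈ X, Real.log (rad w ρ D x) ≤ X.card * Λ := by
    rw [← sum_neg_distrib, ← nsmul_eq_mul]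
    exact sum_le_card_nsmul _ _ _ hΛ
  suffices hE : ∑ x ∈ X, ∑ y ∈ X, k0 x y ≤ (X.card : ℝ) ^ 2 * Λ / ((d : ℝ) - 2) by linarith
  by_cases hA : ∃ p ∈ X, ∃ q ∈ X, D ≤ w (p - q)
  · obtain ⟨p, hp, q, hq, hpq⟩ := hA
    have hne : (univ : Finset (Fin d)).Nonempty := ⟨⟨0, by omega⟩, mem_univ _⟩
    have h4 := energy X (univ : Finset (Fin d)) hne (ker w ρ D) ker_symm (ker_tri hw)
      (Real.log D) (fun x hx => sum_ker hw (by omega) hD0 (hdom x (hX hx)))
      (fun i _ => sum_ker hw (by omega) hD0 (dom_root (by omega) hD0 i))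
    rw [card_univ, Fintype.card_fin] at h4
    have h5 : ((d : ℝ) - 2) * Real.log D ≤ d * Λ := by
      have hdisj : Disjoint (univ.filter fun i => w (p - ρ i) < D)
          (univ.filter fun i => w (q - ρ i) < D) := by
        rw [disjoint_left]
        intro i hi hi'
        have h6 := (mem_filter.1 hi).2
        have h7 := (mem_filter.1 hi').2
        have h8 := wsub_le hw p (ρ i) q
        rw [wcomm (ρ i) q] at h8
        exact absurd hpq (not_le.2 (h8.trans_lt (max_lt h6 h7)))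
      have hc : (univ.filter fun i => w (p - ρ i) < D).card +
          (univ.filter fun i => w (q - ρ i) < D).card ≤ d := by
        rw [← card_union_of_disjoint hdisj]
        exact (card_le_univ _).trans (by rw [Fintype.card_fin])
      rcases le_total (univ.filter fun i => w (p - ρ i) < D).card
        (univ.filter fun i => w (q - ρ i) < D).card with h6 | h6
      · exact half_est hd hD (hdom p (hX hp)) Λ (hΛ p hp) hΛ0 (by omega)
      · exact half_est hd hD (hdom q (hX hq)) Λ (hΛ q hq) hΛ0 (by omega)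
    refine h4.trans ?_
    have hd0 : (0 : ℝ) < d := by linarith
    rw [div_le_div_iff₀ hd0 hd2]
    have : 0 ≤ (X.card : ℝ) ^ 2 := by positivity
    nlinarith
  · push Not at hA
    obtain ⟨x0, hx0⟩ := hXne
    set R := univ.filter fun i => w (x0 - ρ i) < D with hRdef
    set c := Real.log D - ∑ i ∈ univ.filter (fun i => ¬ w (x0 - ρ i) < D),
      Real.log (w (x0 - ρ i)) with hc
    obtain ⟨i1, hi1⟩ := hfar x0 (hX hx0)
    have hRne : R.Nonempty := by
      obtain ⟨-, -, i, hi⟩ := rad_spec (hdom x0 (hX hx0))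
      exact ⟨i, mem_filter.2 ⟨mem_univ _, by
        have := hRadLe x0 (hX hx0)
        linarith⟩⟩
    have key : ∀ a : L, (∃ r, IsRad w ρ D a r) → w (a - x0) < D →
        ∑ i ∈ R, Real.log (max (w (a - ρ i)) (max (rad w ρ D a) (rad w ρ D (ρ i)))) = c := by
      intro a ha hax
      have h5 : ∀ i, ¬ w (x0 - ρ i) < D → w (a - ρ i) = w (x0 - ρ i) := fun i hi =>
        wiso hw (lt_of_lt_of_le hax (not_lt.1 hi))
      have h6 : rad w ρ D a ≤ 1 := rad_le_one (by omega) hD ha
        ⟨i1, by rw [h5 i1 (not_lt.2 hi1)]; exact hi1⟩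
      have h7 := sum_ker hw (by omega) hD0 ha
      rw [← sum_filter_add_sum_filter_not univ (fun i => w (x0 - ρ i) < D)] at h7
      have h8 : ∑ i ∈ univ.filter (fun i => ¬ w (x0 - ρ i) < D),
          Real.log (max (w (a - ρ i)) (max (rad w ρ D a) (rad w ρ D (ρ i)))) =
          ∑ i ∈ univ.filter (fun i => ¬ w (x0 - ρ i) < D), Real.log (w (x0 - ρ i)) := by
        refine sum_congr rfl fun i hi => ?_
        have hi' := (mem_filter.1 hi).2
        rw [kk_root hw (by omega) hD0, h5 i hi', max_eq_left]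
        have := not_lt.1 hi'
        linarith
      rw [h8] at h7
      rw [hc]
      linarith
    have hcle : c ≤ 0 := by
      have h5 : Real.log D ≤ ∑ i ∈ univ.filter (fun i => ¬ w (x0 - ρ i) < D),
          Real.log (w (x0 - ρ i)) := by
        refine le_trans (Real.log_le_log hD0 hi1) ?_
        refine single_le_sum (f := fun i => Real.log (w (x0 - ρ i))) (fun i hi => ?_)
          (mem_filter.2 ⟨mem_univ i1, not_lt.2 hi1⟩)
        refine Real.log_nonneg ?_
        have := not_lt.1 (mem_filter.1 hi).2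
        linarith
      linarith
    have h4 := energy X R hRne (ker w ρ D) ker_symm (ker_tri hw) c
      (fun x hx => key x (hdom x (hX hx)) (hA x hx x0 hx0))
      (fun i hi => key (ρ i) (dom_root (by omega) hD0 i) (by
        rw [wcomm]
        exact (mem_filter.1 hi).2))
    refine h4.trans ?_
    have h5 : (X.card : ℝ) ^ 2 * c / R.card ≤ 0 := by
      apply div_nonpos_of_nonpos_of_nonneg
      · exact mul_nonpos_of_nonneg_of_nonpos (by positivity) hcle
      · positivity
    have h6 : 0 ≤ (X.card : ℝ) ^ 2 * Λ / ((d : ℝ) - 2) := by positivity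
    linarith

/-- the closeness in terms of the number of roots nearby -/
lemma near_est (hD : 1 < D) {p : L} (h : ∃ r, IsRad w ρ D p r) (a : ℕ)
    (hle : rad w ρ D p ≤ 1) (hB : (univ.filter fun i => w (p - ρ i) < D).card ≤ a) :
    ((d : ℝ) - a - 1) * Real.log D ≤ a * (-Real.log (rad w ρ D p)) := by
  classical
  obtain ⟨h1, h2, -⟩ := rad_spec h
  set r := rad w ρ D p with hr
  set B := univ.filter fun i => w (p - ρ i) < D with hBdef
  have hD0 : 0 < D := by linarith
  have hL : 0 < Real.log D := Real.log_pos hD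
  have hsum : ∑ i, Real.log (max (w (p - ρ i)) r) = Real.log D := by
    rw [← Real.log_prod (fun i _ => (lt_max_of_lt_right h1).ne'), h2]
  rw [← sum_filter_add_sum_filter_not univ (fun i => w (p - ρ i) < D)] at hsum
  have h3 : (B.card : ℝ) * Real.log r ≤ ∑ i ∈ univ.filter (fun i => w (p - ρ i) < D),
      Real.log (max (w (p - ρ i)) r) := by
    rw [← nsmul_eq_mul]
    refine card_nsmul_le_sum _ _ _ fun i _ => ?_
    exact Real.log_le_log h1 (le_max_right _ _)
  have h4 : ((univ.filter (fun i => ¬ w (p - ρ i) < D)).card : ℝ) * Real.log D ≤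
      ∑ i ∈ univ.filter (fun i => ¬ w (p - ρ i) < D), Real.log (max (w (p - ρ i)) r) := by
    rw [← nsmul_eq_mul]
    refine card_nsmul_le_sum _ _ _ fun i hi => ?_
    exact Real.log_le_log hD0 ((not_lt.1 (mem_filter.1 hi).2).trans (le_max_left _ _))
  have h5 : B.card + (univ.filter (fun i => ¬ w (p - ρ i) < D)).card = d := by
    have := card_filter_add_card_filter_not (s := (univ : Finset (Fin d)))
      (fun i => w (p - ρ i) < D)
    rwa [card_univ, Fintype.card_fin] at this
  have h5' : (B.card : ℝ) + ((univ.filter (fun i => ¬ w (p - ρ i) < D)).card : ℝ) = d := by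
    exact_mod_cast h5
  set b : ℝ := (B.card : ℝ) with hb
  set b' : ℝ := ((univ.filter (fun i => ¬ w (p - ρ i) < D)).card : ℝ) with hb'
  have hab : b ≤ a := by rw [hb]; exact_mod_cast hB
  have hbe : b' = d - b := by linarith
  rw [hbe] at h4
  have h6 : (d - b - 1) * Real.log D ≤ b * (-Real.log r) := by linarith
  have hlr : 0 ≤ -Real.log r := by
    have := Real.log_nonpos h1.le hle
    linarith
  have h7 : b * (-Real.log r) ≤ a * (-Real.log r) := mul_le_mul_of_nonneg_right hab hlr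
  have h8 : (a : ℝ) * Real.log D ≥ b * Real.log D := mul_le_mul_of_nonneg_right hab hL.le
  nlinarith

/-- the arithmetic of the main estimate -/
lemma arith_est (d a : ℕ) (hd : 3 ≤ d) (ha : 1 ≤ a) (h2a : 2 * a < d) (Mh Mr A E : ℝ)
    (hMh : 0 ≤ Mh) (hMr : 0 ≤ Mr)
    (h1 : E ≤ (Mh + Mr) ^ 2 / d)
    (h2 : E ≤ 2 * Mh * Mr + Mr ^ 2 / d - Mh ^ 2 * ((a : ℝ) - 1) / ((d : ℝ) - a))
    (h3 : Mr * ((d : ℝ) - a - 1) / a ≤ A) : E ≤ 14 / d * (Mh + Mr) * A := by
  have hd3 : (3 : ℝ) ≤ d := by exact_mod_cast hd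
  have ha1 : (1 : ℝ) ≤ a := by exact_mod_cast ha
  have h2a' : 2 * (a : ℝ) + 1 ≤ d := by exact_mod_cast h2a
  have hd0 : (0 : ℝ) < d := by linarith
  have ha0 : (0 : ℝ) < a := by linarith
  have hM : 0 ≤ Mh + Mr := by linarith
  -- `A ≥ Mr d / (3 a)` and `A ≥ Mr`
  have hA1 : Mr * d / (3 * a) ≤ A := by
    refine le_trans ?_ h3
    rw [div_le_div_iff₀ (by positivity) ha0]
    have : (d : ℝ) ≤ 3 * ((d : ℝ) - a - 1) := by linarith
    nlinarith [mul_nonneg hMr ha0.le]
  have hA2 : Mr ≤ A := by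
    refine le_trans ?_ h3
    rw [le_div_iff₀ ha0]
    nlinarith
  have hA0 : 0 ≤ A := hMr.trans hA2
  by_cases hc : 3 * a * (Mh + Mr) ≤ 14 * (Mr * d)
  · -- the first bound
    refine h1.trans ?_
    have h4 : Mh + Mr ≤ 14 * A := by
      have h5 : (Mh + Mr) ≤ 14 * (Mr * d / (3 * a)) := by
        rw [← mul_div_assoc, le_div_iff₀ (by positivity)]
        linarith
      linarith
    have e : 14 / (d : ℝ) * (Mh + Mr) * A = (Mh + Mr) * (14 * A) / d := by
      field_simp
    rw [e]
    have h5 : (Mh + Mr) ^ 2 ≤ (Mh + Mr) * (14 * A) := by nlinarith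
    exact div_le_div_of_nonneg_right h5 hd0.le
  · push Not at hc
    refine h2.trans ?_
    have e : 14 / (d : ℝ) * (Mh + Mr) * A = 14 * (Mh + Mr) * A / d := by
      field_simp
    rw [e]
    have hda : (0 : ℝ) < (d : ℝ) - a := by linarith
    by_cases ha2 : a = 1
    · -- one root outside
      have h4 : Mh ^ 2 * ((a : ℝ) - 1) / ((d : ℝ) - a) = 0 := by
        rw [ha2]; simp
      rw [h4, sub_zero]
      have hA3 : Mr * d ≤ 3 * A := by
        rw [ha2] at hA1
        have : Mr * d / (3 * ((1 : ℕ) : ℝ)) = Mr * d / 3 := by simp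
        rw [this] at hA1
        linarith
      rw [le_div_iff₀ hd0]
      have e2 : (2 * Mh * Mr + Mr ^ 2 / d) * d = 2 * Mh * (Mr * d) + Mr ^ 2 := by
        field_simp
      rw [e2]
      have h5 : 2 * Mh * (Mr * d) ≤ 2 * Mh * (3 * A) := by
        apply mul_le_mul_of_nonneg_left hA3
        linarith
      have h6 : Mr ^ 2 ≤ Mr * A := by nlinarith
      nlinarith [mul_nonneg hMh hA0, mul_nonneg hMr hA0]
    · -- more roots outside
      have ha2' : (2 : ℝ) ≤ a := by
        exact_mod_cast (by omega : 2 ≤ a)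
      have h4 : Mh ^ 2 * a / (2 * d) ≤ Mh ^ 2 * ((a : ℝ) - 1) / ((d : ℝ) - a) := by
        rw [div_le_div_iff₀ (by positivity) hda]
        have h5 : a * ((d : ℝ) - a) ≤ ((a : ℝ) - 1) * (2 * d) := by nlinarith
        nlinarith [mul_le_mul_of_nonneg_left h5 (sq_nonneg Mh)]
      have h6 : 2 * Mh * Mr ≤ Mh ^ 2 * a / (2 * d) := by
        rw [le_div_iff₀ (by positivity)]
        -- `4 d Mr ≤ a Mh`
        have h7 : 4 * (Mr * d) ≤ a * Mh := by
          have h8 : a * Mr ≤ (d : ℝ) * Mr / 2 := by nlinarith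
          nlinarith
        nlinarith [mul_le_mul_of_nonneg_left h7 hMh]
      have h7 : Mr ^ 2 / d ≤ 14 * (Mh + Mr) * A / d := by
        apply div_le_div_of_nonneg_right _ hd0.le
        nlinarith [mul_nonneg hMh hA0, mul_nonneg hMr hA0]
      linarith

open Classical in
/-- choice of a root -/
noncomputable def pick (hd : 0 < d) (s : Finset (Fin d)) : Fin d :=
  if h : s.Nonempty then h.choose else ⟨0, hd⟩

open Classical in
/-- the label of the component -/
noncomputable def lab (hd : 0 < d) (w : AbsoluteValue L ℝ) (ρ : Fin d → L) (D : ℝ) (a : L) :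
    Fin d :=
  pick hd (univ.filter fun i => w (a - ρ i) ≤ rad w ρ D a)

lemma lab_spec (hd : 0 < d) {a : L} (h : ∃ r, IsRad w ρ D a r) :
    w (a - ρ (lab hd w ρ D a)) ≤ rad w ρ D a := by
  classical
  obtain ⟨-, -, i, hi⟩ := rad_spec h
  have hne : (univ.filter fun i => w (a - ρ i) ≤ rad w ρ D a).Nonempty :=
    ⟨i, mem_filter.2 ⟨mem_univ _, hi⟩⟩
  have h1 : lab hd w ρ D a ∈ univ.filter fun i => w (a - ρ i) ≤ rad w ρ D a := by
    unfold lab pick
    rw [dif_pos hne]
    exact hne.choose_spec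
  exact (mem_filter.1 h1).2

lemma rad_root (hw : IsNonarchimedean w) {a : L} (h : ∃ r, IsRad w ρ D a r) {i : Fin d}
    (hi : w (a - ρ i) ≤ rad w ρ D a) : rad w ρ D (ρ i) = rad w ρ D a := rad_eq hw h hi

lemma near_of_root (hw : IsNonarchimedean w) {a b : L} (ha : ∃ r, IsRad w ρ D a r)
    (hb : ∃ r, IsRad w ρ D b r) {i : Fin d} (hi : w (a - ρ i) ≤ rad w ρ D a)
    (hi' : w (b - ρ i) ≤ rad w ρ D b) :
    rad w ρ D a = rad w ρ D b ∧ w (a - b) ≤ rad w ρ D a := by
  have h1 := rad_root hw ha hi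
  have h2 := rad_root hw hb hi'
  have h3 : rad w ρ D a = rad w ρ D b := h1.symm.trans h2
  refine ⟨h3, ?_⟩
  have h4 := wsub_le hw a (ρ i) b
  rw [wcomm (ρ i) b] at h4
  exact h4.trans (max_le hi (by rw [h3]; exact hi'))

lemma lab_eq (hd : 0 < d) (hw : IsNonarchimedean w) {a b : L} (h : ∃ r, IsRad w ρ D a r)
    (hab : w (a - b) ≤ rad w ρ D a) : lab hd w ρ D a = lab hd w ρ D b := by
  classical
  unfold lab
  congr 1
  ext i
  simp only [mem_filter, mem_univ, true_and]
  rw [rad_eq hw h hab]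
  constructor
  · intro h1
    have h2 := wsub_le hw b a (ρ i)
    rw [wcomm b a] at h2
    exact h2.trans (max_le hab h1)
  · intro h1
    exact (wsub_le hw a b (ρ i)).trans (max_le hab h1)

end Pool.Agent.TH737.FE
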