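import Pool.Agent.TH737.FE.LocW

/-!
# The local estimates for a finite forward invariant set
-/

set_option autoImplicit false

namespace Pool.Agent.TH737.FE

open Finset Polynomial

variable {L : Type*} [Field L] {d : ℕ} {w : AbsoluteValue L ℝ} {ρ : Fin d → L} {D : ℝ}

lemma exists_roots [IsAlgClosed L] (w : AbsoluteValue L ℝ) (G : L[X]) (hG : G.Monic)
    (hd : 1 ≤ G.natDegree) (c : L) : ∃ ρ : Fin G.natDegree → L,
      ∀ u, w (G.eval u - c) = ∏ i, w (u - ρ i) := by
  classical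
  have hcard : (G - C c).roots.card = G.natDegree := by
    have hs : (G - C c).Splits := IsAlgClosed.splits _
    rw [← hs.natDegree_eq_card_roots, natDegree_sub_C]
  obtain ⟨l, hl⟩ : ∃ l : List L, (l : Multiset L) = (G - C c).roots := Quot.exists_rep _
  have hlen : l.length = G.natDegree := by
    rw [← hcard, ← hl]
    rfl
  refine ⟨fun i => l.get (Fin.cast hlen.symm i), fun u => ?_⟩
  rw [Pool.Agent.TH737.HEN.abv_eval_sub w G hG hd c u, ← hl]
  have h1 : ∏ i : Fin G.natDegree, w (u - l.get (Fin.cast hlen.symm i)) =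
      ∏ i : Fin l.length, w (u - l.get i) := by
    refine Fintype.prod_equiv (finCongr hlen.symm) _ _ fun i => rfl
  rw [h1, Multiset.map_coe, Multiset.prod_coe, ← List.prod_ofFn]
  congr 1
  have h2 : List.map (fun ρ => w (u - ρ)) l = List.map (fun ρ => w (u - ρ)) (List.ofFn l.get) := by
    rw [List.ofFn_get]
  rw [h2, List.map_ofFn]
  rfl

lemma far_of (hw : IsNonarchimedean w) (hd : 2 ≤ d) (hD : 1 < D) (S : Finset L)
    (hpq : ∃ p ∈ S, ∃ q ∈ S, w (p - q) = D) (hρ : ∀ u ∈ S, ∏ i, w (u - ρ i) ≤ D) :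
    ∀ u ∈ S, ∃ i, D ≤ w (u - ρ i) := by
  intro u _
  obtain ⟨p, hp, q, hq, hpq⟩ := hpq
  obtain ⟨z, hz, hzu⟩ : ∃ z ∈ S, D ≤ w (z - u) := by
    by_contra hcon
    push Not at hcon
    have h1 := hcon p hp
    have h2 := hcon q hq
    have h3 := wsub_le hw p u q
    rw [wcomm u q, hpq] at h3
    exact absurd h3 (not_le.2 (max_lt h1 h2))
  by_contra hcon
  push Not at hcon
  have h1 : ∀ i, D ≤ w (z - ρ i) := by
    intro i
    have h2 : w (ρ i - u) < w (u - z) := by
      rw [wcomm, wcomm u z]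
      exact lt_of_lt_of_le (hcon i) hzu
    have h3 := wiso hw h2
    rw [wcomm z (ρ i), h3, wcomm u z]
    exact hzu
  have h2 : ∏ _i : Fin d, D ≤ ∏ i, w (z - ρ i) :=
    prod_le_prod (fun _ _ => by linarith) fun i _ => h1 i
  rw [prod_const, card_univ, Fintype.card_fin] at h2
  have h3 : D ^ 1 < D ^ d := pow_lt_pow_right₀ hD (by omega)
  rw [pow_one] at h3
  have := hρ z hz
  linarith

lemma count1 [DecidableEq L] (hw : IsNonarchimedean w) (hD : 1 < D) (C : Finset L)
    (hC : ∀ x ∈ C, ∀ y ∈ C, x ≠ y → w (x - y) = 1) (hfar : ∀ x ∈ C, ∃ i, D ≤ w (x - ρ i))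
    (hlt : ∀ x ∈ C, ∏ i, w (x - ρ i) < D) : C.card ≤ d - 1 := by
  rcases C.eq_empty_or_nonempty with rfl | ⟨x1, hx1⟩
  · simp
  obtain ⟨i0, hi0⟩ := hfar x1 hx1
  have hfar' : ∀ x ∈ C, D ≤ w (x - ρ i0) := by
    intro x hx
    by_cases h : x = x1
    · rw [h]; exact hi0
    · have h1 := hC x hx x1 hx1 h
      rw [wiso hw (by rw [h1]; linarith : w (x - x1) < w (x1 - ρ i0))]
      exact hi0
  have hex : ∀ x ∈ C, ∃ j, j ≠ i0 ∧ w (x - ρ j) < 1 := by
    intro x hx
    by_contra hcon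
    push Not at hcon
    have h1 := hlt x hx
    rw [← mul_prod_erase _ _ (mem_univ i0)] at h1
    have h2 : ∏ _i ∈ (univ : Finset (Fin d)).erase i0, (1 : ℝ) ≤
        ∏ i ∈ univ.erase i0, w (x - ρ i) :=
      prod_le_prod (fun _ _ => zero_le_one) fun i hi => hcon i (ne_of_mem_erase hi)
    rw [prod_const_one] at h2
    have h3 := hfar' x hx
    nlinarith
  have : Nonempty (Fin d) := ⟨i0⟩
  choose! f hf hf' using hex
  have h1 := card_le_card_of_injOn f (s := C) (t := (univ : Finset (Fin d)).erase i0)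
    (fun x hx => mem_erase.2 ⟨hf x hx, mem_univ _⟩) (by
      intro x hx y hy hxy
      by_contra hne
      have h1 := hC x hx y hy hne
      have h2 := wsub_le hw x (ρ (f x)) y
      have h3 := hf' x hx
      have h4 := hf' y hy
      rw [← hxy, wcomm y] at h4
      have := h2.trans_lt (max_lt h3 h4)
      linarith)
  rwa [card_erase_of_mem (mem_univ i0), card_univ, Fintype.card_fin] at h1

/-- **The local estimates.** -/
theorem local_est [IsAlgClosed L] [DecidableEq L] (w : AbsoluteValue L ℝ)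
    (hw : IsNonarchimedean w) (d : ℕ) (hd : 3 ≤ d) (G : L[X]) (hG : G.Monic)
    (hdeg : G.natDegree = d) (S : Finset L) (hS : ∀ s ∈ S, G.eval s ∈ S) :
    ∃ (κ : L → Fin d) (lam : L → ℝ), (∀ x ∈ S, 0 ≤ lam x) ∧
      (∀ x ∈ S, ∀ y ∈ S, κ x = κ y → lam x = lam y ∧ (x ≠ y → Real.log (w (x - y)) ≤ -lam x)) ∧
      (∀ X : Finset L, X ⊆ S → ∀ Λ : ℝ, 0 ≤ Λ → (∀ x ∈ X, lam x ≤ Λ) →
        ∑ x ∈ X, ∑ y ∈ X.erase x, Real.log (w (x - y)) ≤
          X.card * Λ + (X.card : ℝ) ^ 2 * Λ / ((d : ℝ) - 2)) ∧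
      (∀ x ∈ S, ∀ y ∈ S, lam x = 0 → lam y = 0 → w (x - y) ≤ 1) ∧
      ((∃ p ∈ S, ∃ q ∈ S, 1 < w (p - q)) → ∀ C : Finset L, C ⊆ S → (∀ x ∈ C, lam x = 0) →
        (∀ x ∈ C, ∀ y ∈ C, x ≠ y → w (x - y) = 1) → C.card ≤ 2 * (d - 1)) ∧
      ((∃ x ∈ S, lam x = 0) → ∀ y ∈ S, ∀ z ∈ S, 0 < lam y → 0 < lam z → κ y = κ z) ∧
      (∀ X : Finset L, X ⊆ S → ∀ μ : L → ℝ, (∀ x ∈ X, 0 ≤ μ x) →
        ∑ x ∈ X, ∑ y ∈ X.erase x, μ x * μ y * Real.log (w (x - y)) ≤
          ∑ x ∈ X, μ x ^ 2 * lam x + 14 / d * (∑ x ∈ X, μ x) * ∑ x ∈ X, μ x * lam x) := by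
  by_cases htriv : ∀ p ∈ S, ∀ q ∈ S, w (p - q) ≤ 1
  · refine ⟨fun _ => ⟨0, by omega⟩, fun _ => 0, fun _ _ => le_rfl, ?_, ?_, ?_, ?_, ?_, ?_⟩
    · intro x hx y hy _
      refine ⟨rfl, fun _ => ?_⟩
      rw [neg_zero]
      exact Real.log_nonpos (w.nonneg _) (htriv x hx y hy)
    · intro X hX Λ hΛ _
      have h1 : ∑ x ∈ X, ∑ y ∈ X.erase x, Real.log (w (x - y)) ≤ 0 :=
        sum_nonpos fun x hx => sum_nonpos fun y hy =>
          Real.log_nonpos (w.nonneg _) (htriv x (hX hx) y (hX (mem_of_mem_erase hy)))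
      have hd2 : (0 : ℝ) < (d : ℝ) - 2 := by
        have : (3 : ℝ) ≤ d := by exact_mod_cast hd
        linarith
      have h2 : 0 ≤ X.card * Λ + (X.card : ℝ) ^ 2 * Λ / ((d : ℝ) - 2) := by positivity
      linarith
    · intro x hx y hy _ _
      exact htriv x hx y hy
    · rintro ⟨p, hp, q, hq, h⟩
      exact absurd (htriv p hp q hq) (not_le.2 h)
    · intro _ y _ z _ h
      exact absurd h (lt_irrefl _)
    · intro X hX μ hμ
      have h1 : ∑ x ∈ X, ∑ y ∈ X.erase x, μ x * μ y * Real.log (w (x - y)) ≤ 0 :=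
        sum_nonpos fun x hx => sum_nonpos fun y hy =>
          mul_nonpos_of_nonneg_of_nonpos (mul_nonneg (hμ x hx) (hμ y (mem_of_mem_erase hy)))
            (Real.log_nonpos (w.nonneg _) (htriv x (hX hx) y (hX (mem_of_mem_erase hy))))
      simpa using h1
  push Not at htriv
  obtain ⟨p₀, hp₀, q₀, hq₀, h₀⟩ := htriv
  obtain ⟨x, hx, hmax⟩ := exists_max_image (S ×ˢ S) (fun x => w (x.1 - x.2))
    ⟨(p₀, q₀), mem_product.2 ⟨hp₀, hq₀⟩⟩
  rw [mem_product] at hx
  set p := x.1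
  set q := x.2
  have hp : p ∈ S := hx.1
  have hq : q ∈ S := hx.2
  set D := w (p - q) with hDdef
  have hdiam : ∀ u ∈ S, ∀ u' ∈ S, w (u - u') ≤ D :=
    fun u hu u' hu' => hmax (u, u') (mem_product.2 ⟨hu, hu'⟩)
  have hD : 1 < D := lt_of_lt_of_le h₀ (hdiam p₀ hp₀ q₀ hq₀)
  have hpq : ∃ p ∈ S, ∃ q ∈ S, w (p - q) = D := ⟨p, hp, q, hq, rfl⟩
  have hbase : ∀ b : L, ∃ ρ : Fin d → L, ∀ u, w (G.eval u - b) = ∏ i, w (u - ρ i) := by
    intro b
    subst hdeg
    exact exists_roots w G hG (by omega) b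
  obtain ⟨ρ, hρ⟩ := hbase (G.eval p)
  have hprod : ∀ u ∈ S, ∏ i, w (u - ρ i) ≤ D := fun u hu => by
    rw [← hρ]
    exact hdiam _ (hS u hu) _ (hS p hp)
  have hfar := far_of hw (by omega) hD S hpq hprod
  have hdom : ∀ u ∈ S, ∃ r, IsRad w ρ D u r := fun u hu =>
    exists_isRad (by omega) (by linarith) u (hprod u hu)
  have hle1 : ∀ u ∈ S, rad w ρ D u ≤ 1 := fun u hu =>
    rad_le_one (by omega) hD (hdom u hu) (hfar u hu)
  have hlam0 : ∀ u : L, -Real.log (rad w ρ D u) = 0 → rad w ρ D u = 1 := by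
    intro u hu
    have h1 : Real.log (rad w ρ D u) = 0 := by linarith
    exact Real.eq_one_of_pos_of_log_eq_zero (rad_pos u) h1
  have hd0 : 0 < d := by omega
  -- the two types of points
  have htype : ∀ x ∈ S, rad w ρ D x = 1 → ∀ i0, D ≤ w (x - ρ i0) → ∀ s ∈ S,
      w (s - x) ≤ 1 ∨ w (s - ρ i0) ≤ rad w ρ D s := by
    intro x hx hx1 i0 hi0 s hs
    obtain ⟨-, -, i, hi⟩ := rad_spec (hdom s hs)
    by_cases h : i = i0
    · right; rwa [h] at hi
    · left
      have h1 := near_of_rad_one (by omega) hD (hdom x hx) i0 hi0 hx1 i h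
      have h2 := wsub_le hw s (ρ i) x
      rw [wcomm (ρ i) x] at h2
      exact h2.trans (max_le (hi.trans (hle1 s hs)) h1)
  refine ⟨lab hd0 w ρ D, fun u => -Real.log (rad w ρ D u), ?_, ?_, ?_, ?_, ?_, ?_,
    fun X hX μ hμ => energy_est2 hw hd hD S hdom hfar hdiam X hX μ hμ⟩
  · intro x hx
    have := Real.log_nonpos (rad_pos x).le (hle1 x hx)
    linarith
  · intro x hx y hy hxy
    have h1 := lab_spec hd0 (hdom x hx)
    have h2 := lab_spec hd0 (hdom y hy)
    rw [← hxy] at h2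
    obtain ⟨h3, h4⟩ := near_of_root hw (hdom x hx) (hdom y hy) h1 h2
    refine ⟨by show -Real.log (rad w ρ D x) = -Real.log (rad w ρ D y); rw [h3], fun hne => ?_⟩
    rw [neg_neg]
    exact Real.log_le_log (w.pos (sub_ne_zero.2 hne)) h4
  · intro X hX Λ hΛ hXΛ
    exact energy_est hw hd hD S hdom hfar X hX Λ hΛ hXΛ
  · intro x hx y hy hx0 hy0
    obtain ⟨i0, hi0⟩ := hfar x hx
    obtain ⟨j0, hj0⟩ := hfar y hy
    have hne : ((univ : Finset (Fin d)) \ {i0, j0}).Nonempty := by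
      rw [← card_pos]
      have h1 := le_card_sdiff {i0, j0} (univ : Finset (Fin d))
      rw [card_univ, Fintype.card_fin] at h1
      have h2 : ({i0, j0} : Finset (Fin d)).card ≤ 2 := card_le_two
      omega
    obtain ⟨i, hi⟩ := hne
    simp only [mem_sdiff, mem_univ, true_and, mem_insert, mem_singleton, not_or] at hi
    have h1 := near_of_rad_one (by omega) hD (hdom x hx) i0 hi0 (hlam0 x hx0) i hi.1
    have h2 := near_of_rad_one (by omega) hD (hdom y hy) j0 hj0 (hlam0 y hy0) i hi.2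
    have h3 := wsub_le hw x (ρ i) y
    rw [wcomm (ρ i) y] at h3
    exact h3.trans (max_le h1 h2)
  · intro _ C hCS hC0 hC1
    set C1 := C.filter fun x => w (G.eval x - G.eval p) < D with hC1def
    set C2 := C.filter fun x => ¬ w (G.eval x - G.eval p) < D with hC2def
    have hsum : C1.card + C2.card = C.card := card_filter_add_card_filter_not _
    have h1 : C1.card ≤ d - 1 := by
      refine count1 (ρ := ρ) hw hD C1 ?_ ?_ ?_
      · intro x hx y hy hxy
        exact hC1 x (mem_filter.1 hx).1 y (mem_filter.1 hy).1 hxy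
      · intro x hx
        exact hfar x (hCS (mem_filter.1 hx).1)
      · intro x hx
        rw [← hρ]
        exact (mem_filter.1 hx).2
    have h2 : C2.card ≤ d - 1 := by
      rcases C2.eq_empty_or_nonempty with h | ⟨y1, hy1⟩
      · rw [h]; simp
      obtain ⟨ρ', hρ'⟩ := hbase (G.eval y1)
      have hy1C := (mem_filter.1 hy1).1
      have hy1S := hCS hy1C
      have hprod' : ∀ u ∈ S, ∏ i, w (u - ρ' i) ≤ D := fun u hu => by
        rw [← hρ']
        exact hdiam _ (hS u hu) _ (hS y1 hy1S)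
      have hfar' := far_of hw (by omega) hD S hpq hprod'
      refine count1 (ρ := ρ') hw hD C2 ?_ ?_ ?_
      · intro x hx y hy hxy
        exact hC1 x (mem_filter.1 hx).1 y (mem_filter.1 hy).1 hxy
      · intro x hx
        exact hfar' x (hCS (mem_filter.1 hx).1)
      · intro x hx
        rw [← hρ']
        have hxS := hCS (mem_filter.1 hx).1
        have h3 := not_lt.1 (mem_filter.1 hx).2
        have h4 := not_lt.1 (mem_filter.1 hy1).2
        obtain ⟨i0, hi0⟩ := hfar y1 hy1S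
        have hy1r := hlam0 y1 (hC0 y1 hy1C)
        have T := htype y1 hy1S hy1r i0 hi0
        have hu := hS x hxS
        have hv := hS y1 hy1S
        have hz := hS p hp
        have hB : ∀ s ∈ S, ∀ s' ∈ S, w (s - ρ i0) ≤ rad w ρ D s → w (s' - ρ i0) ≤ rad w ρ D s' →
            w (s - s') ≤ 1 := by
          intro s hs s' hs' h5 h6
          have h7 := wsub_le hw s (ρ i0) s'
          rw [wcomm (ρ i0) s'] at h7
          exact h7.trans (max_le (h5.trans (hle1 s hs)) (h6.trans (hle1 s' hs')))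
        have hA : ∀ s ∈ S, ∀ s' ∈ S, w (s - y1) ≤ 1 → w (s' - y1) ≤ 1 → w (s - s') ≤ 1 := by
          intro s _ s' _ h5 h6
          have h7 := wsub_le hw s y1 s'
          rw [wcomm y1 s'] at h7
          exact h7.trans (max_le h5 h6)
        rcases T _ hu with hu1 | hu1
        · rcases T _ hv with hv1 | hv1
          · exact (hA _ hu _ hv hu1 hv1).trans_lt hD
          · rcases T _ hz with hz1 | hz1
            · have := hA _ hu _ hz hu1 hz1
              linarith
            · have := hB _ hv _ hz hv1 hz1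
              linarith
        · rcases T _ hv with hv1 | hv1
          · rcases T _ hz with hz1 | hz1
            · have := hA _ hv _ hz hv1 hz1
              linarith
            · have := hB _ hu _ hz hu1 hz1
              linarith
          · exact (hB _ hu _ hv hu1 hv1).trans_lt hD
    omega
  · rintro ⟨x, hx, hx0⟩ y hy z hz hy0 hz0
    have hx1 := hlam0 x hx0
    obtain ⟨i0, hi0⟩ := hfar x hx
    have key : ∀ s ∈ S, 0 < -Real.log (rad w ρ D s) → w (s - ρ i0) ≤ rad w ρ D s := by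
      intro s hs hs0
      obtain ⟨-, -, i, hi⟩ := rad_spec (hdom s hs)
      by_cases h : i = i0
      · rwa [h] at hi
      · exfalso
        have h1 := near_of_rad_one (by omega) hD (hdom x hx) i0 hi0 hx1 i h
        obtain ⟨h2, -⟩ := near_of_root hw (hdom s hs) (hdom x hx) hi (by rw [hx1]; exact h1)
        rw [h2, hx1, Real.log_one] at hs0
        simp at hs0
    obtain ⟨-, h1⟩ := near_of_root hw (hdom y hy) (hdom z hz) (key y hy hy0) (key z hz hz0)
    exact lab_eq hd0 hw (hdom y hy) h1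

end Pool.Agent.TH737.FE
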