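import Pool.Agent.TH737.FE.Loc

/-!
# The weighted local estimate
-/

set_option autoImplicit false

namespace Pool.Agent.TH737.FE

open Finset Polynomial

variable {L : Type*} [Field L] {d : ℕ} {w : AbsoluteValue L ℝ} {ρ : Fin d → L} {D : ℝ}

/-- the energy of a measure on points in one component -/
lemma heavy_est (hw : IsNonarchimedean w) (hd : 3 ≤ d) (hD : 1 < D) (S : Finset L)
    [DecidableEq L]
    (hdom : ∀ u ∈ S, ∃ r, IsRad w ρ D u r) (hfar : ∀ u ∈ S, ∃ i, D ≤ w (u - ρ i))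
    (x0 : L) (hx0 : x0 ∈ S) (X : Finset L) (hX : X ⊆ S) (hA : ∀ x ∈ X, w (x - x0) < D)
    (a : ℕ) (ha : (univ.filter fun i => w (x0 - ρ i) < D).card + a = d)
    (μ : L → ℝ) :
    ∑ x ∈ X, ∑ y ∈ X, μ x * μ y * ker w ρ D (Sum.inl x) (Sum.inl y) ≤
      (∑ x ∈ X, μ x) ^ 2 * (Real.log D - a * Real.log D) / ((d : ℝ) - a) := by
  have hD0 : 0 < D := by linarith
  have hL : 0 < Real.log D := Real.log_pos hD
  have hRadLe : ∀ u ∈ S, rad w ρ D u ≤ 1 := fun u hu =>
    rad_le_one (by omega) hD (hdom u hu) (hfar u hu)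
  set R := univ.filter fun i => w (x0 - ρ i) < D with hRdef
  set c := Real.log D - ∑ i ∈ univ.filter (fun i => ¬ w (x0 - ρ i) < D),
    Real.log (w (x0 - ρ i)) with hc
  obtain ⟨i1, hi1⟩ := hfar x0 hx0
  have hRne : R.Nonempty := by
    obtain ⟨-, -, i, hi⟩ := rad_spec (hdom x0 hx0)
    exact ⟨i, mem_filter.2 ⟨mem_univ _, by
      have := hRadLe x0 hx0
      linarith⟩⟩
  have key : ∀ a : L, (∃ r, IsRad w ρ D a r) → w (a - x0) < D →
      ∑ i ∈ R, Real.log (max (w (a - ρ i)) (max (rad w ρ D a) (rad w ρ D (ρ i)))) = c := by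
    intro a ha hax
    have h5 : ∀ i, ¬ w (x0 - ρ i) < D → w (a - ρ i) = w (x0 - ρ i) := fun i hi =>
      wiso hw (lt_of_lt_of_le hax (not_lt.1 hi))
    have h6 : rad w ρ D a ≤ 1 := rad_le_one (by omega) hD ha
      ⟨i1, by rw [h5 i1 (not_lt.2 hi1)]; exact hi1⟩
    have h7 := sum_ker hw (by omega) hD0 ha
    rw [← sum_filter_add_sum_filter_not univ (fun i => w (x0 - ρ i) < D)] at h7
    have h8 : ∑ i ∈ univ.filter (fun i => ¬ w (x0 - ρ i) < D),
        Real.log (max (w (a - ρ i)) (max (rad w ρ D a) (rad w ρ D (ρ i)))) =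
        ∑ i ∈ univ.filter (fun i => ¬ w (x0 - ρ i) < D), Real.log (w (x0 - ρ i)) := by
      refine sum_congr rfl fun i hi => ?_
      have hi' := (mem_filter.1 hi).2
      rw [kk_root hw (by omega) hD0, h5 i hi', max_eq_left]
      have := not_lt.1 hi'
      linarith
    rw [h8] at h7
    rw [hc]
    linarith
  have hcard : ((univ.filter (fun i => ¬ w (x0 - ρ i) < D)).card : ℝ) = a := by
    have h5 := card_filter_add_card_filter_not (s := (univ : Finset (Fin d)))
      (fun i => w (x0 - ρ i) < D)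
    rw [card_univ, Fintype.card_fin] at h5
    have h6 : (univ.filter (fun i => ¬ w (x0 - ρ i) < D)).card = a := by
      rw [← hRdef] at h5
      omega
    rw [h6]
  have hcle : c ≤ Real.log D - a * Real.log D := by
    have h5 : (a : ℝ) * Real.log D ≤ ∑ i ∈ univ.filter (fun i => ¬ w (x0 - ρ i) < D),
        Real.log (w (x0 - ρ i)) := by
      rw [← hcard, ← nsmul_eq_mul]
      refine card_nsmul_le_sum _ _ _ fun i hi => ?_
      exact Real.log_le_log hD0 (not_lt.1 (mem_filter.1 hi).2)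
    linarith
  have h4 := energyW X R hRne (ker w ρ D) ker_symm (ker_tri hw) c μ
    (fun x hx => key x (hdom x (hX hx)) (hA x hx))
    (fun i hi => key (ρ i) (dom_root (by omega) hD0 i) (by
      rw [wcomm]
      exact (mem_filter.1 hi).2))
  refine h4.trans ?_
  have hRc : (R.card : ℝ) = (d : ℝ) - a := by
    have : (R.card : ℝ) + a = d := by exact_mod_cast ha
    linarith
  rw [hRc]
  have hpos : (0 : ℝ) < (d : ℝ) - a := by
    rw [← hRc]; exact_mod_cast card_pos.2 hRne
  apply div_le_div_of_nonneg_right _ hpos.le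
  exact mul_le_mul_of_nonneg_left hcle (sq_nonneg _)

/-- The weighted energy estimate. -/
theorem energy_est2 (hw : IsNonarchimedean w) (hd : 3 ≤ d) (hD : 1 < D) (S : Finset L)
    [DecidableEq L]
    (hdom : ∀ u ∈ S, ∃ r, IsRad w ρ D u r) (hfar : ∀ u ∈ S, ∃ i, D ≤ w (u - ρ i))
    (hdiam : ∀ u ∈ S, ∀ u' ∈ S, w (u - u') ≤ D)
    (X : Finset L) (hX : X ⊆ S) (μ : L → ℝ) (hμ : ∀ x ∈ X, 0 ≤ μ x) :
    ∑ x ∈ X, ∑ y ∈ X.erase x, μ x * μ y * Real.log (w (x - y)) ≤
      ∑ x ∈ X, μ x ^ 2 * (-Real.log (rad w ρ D x)) +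
        14 / d * (∑ x ∈ X, μ x) * ∑ x ∈ X, μ x * (-Real.log (rad w ρ D x)) := by
  have hD0 : 0 < D := by linarith
  have hd3 : (3 : ℝ) ≤ d := by exact_mod_cast hd
  have hd0 : (0 : ℝ) < d := by linarith
  have hL : 0 < Real.log D := Real.log_pos hD
  have hRadLe : ∀ u ∈ S, rad w ρ D u ≤ 1 := fun u hu =>
    rad_le_one (by omega) hD (hdom u hu) (hfar u hu)
  have hlam0 : ∀ x ∈ S, 0 ≤ -Real.log (rad w ρ D x) := by
    intro x hx
    have := Real.log_nonpos (rad_pos x).le (hRadLe x hx)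
    linarith
  set k0 : L → L → ℝ := fun x y => ker w ρ D (Sum.inl x) (Sum.inl y) with hk0
  have hk0' : ∀ x y, k0 x y = Real.log (max (w (x - y)) (max (rad w ρ D x) (rad w ρ D y))) :=
    fun x y => rfl
  have h1 : ∑ x ∈ X, ∑ y ∈ X.erase x, μ x * μ y * Real.log (w (x - y)) ≤
      ∑ x ∈ X, ∑ y ∈ X.erase x, μ x * μ y * k0 x y := by
    refine sum_le_sum fun x hx => sum_le_sum fun y hy => ?_
    refine mul_le_mul_of_nonneg_left ?_ (mul_nonneg (hμ x hx) (hμ y (mem_of_mem_erase hy)))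
    rw [hk0']
    exact Real.log_le_log (w.pos (sub_ne_zero.2 (ne_of_mem_erase hy).symm)) (le_max_left _ _)
  have h2 : ∑ x ∈ X, ∑ y ∈ X.erase x, μ x * μ y * k0 x y =
      ∑ x ∈ X, ∑ y ∈ X, μ x * μ y * k0 x y + ∑ x ∈ X, μ x ^ 2 * (-Real.log (rad w ρ D x)) := by
    rw [← sum_add_distrib]
    refine sum_congr rfl fun x hx => ?_
    rw [← add_sum_erase X (fun y => μ x * μ y * k0 x y) hx]
    have : k0 x x = Real.log (rad w ρ D x) := by
      rw [hk0', sub_self, map_zero, max_self, max_eq_right (rad_pos x).le]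
    rw [this]
    ring
  set M := ∑ x ∈ X, μ x with hM
  set A := ∑ x ∈ X, μ x * (-Real.log (rad w ρ D x)) with hAdef
  have hM0 : 0 ≤ M := sum_nonneg hμ
  have hA0 : 0 ≤ A := sum_nonneg fun x hx => mul_nonneg (hμ x hx) (hlam0 x (hX hx))
  suffices hE : ∑ x ∈ X, ∑ y ∈ X, μ x * μ y * k0 x y ≤ 14 / d * M * A by linarith
  have hgen : ∀ Y : Finset L, Y ⊆ X → ∑ x ∈ Y, ∑ y ∈ Y, μ x * μ y * k0 x y ≤
      (∑ x ∈ Y, μ x) ^ 2 * Real.log D / d := by
    intro Y hY
    have hne : (univ : Finset (Fin d)).Nonempty := ⟨⟨0, by omega⟩, mem_univ _⟩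
    have h4 := energyW Y (univ : Finset (Fin d)) hne (ker w ρ D) ker_symm (ker_tri hw)
      (Real.log D) μ (fun x hx => sum_ker hw (by omega) hD0 (hdom x (hX (hY hx))))
      (fun i _ => sum_ker hw (by omega) hD0 (dom_root (by omega) hD0 i))
    rwa [card_univ, Fintype.card_fin] at h4
  by_cases hcase : ∀ x ∈ X, 2 * (univ.filter fun i => w (x - ρ i) < D).card ≤ d
  · -- no heavy component
    have h5 : ∀ x ∈ X, ((d : ℝ) - 2) * Real.log D ≤ d * (-Real.log (rad w ρ D x)) := fun x hx =>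
      half_est hd hD (hdom x (hX hx)) _ le_rfl (hlam0 x (hX hx)) (hcase x hx)
    have h6 : ((d : ℝ) - 2) * Real.log D * M ≤ d * A := by
      rw [hM, hAdef, mul_sum, mul_sum]
      refine sum_le_sum fun x hx => ?_
      have := mul_le_mul_of_nonneg_right (h5 x hx) (hμ x hx)
      calc ((d : ℝ) - 2) * Real.log D * μ x ≤ d * (-Real.log (rad w ρ D x)) * μ x := this
        _ = d * (μ x * (-Real.log (rad w ρ D x))) := by ring
    have h7 : Real.log D * M ≤ 3 * A := by
      have h8 : (d : ℝ) ≤ 3 * ((d : ℝ) - 2) := by linarith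
      have h9 : (d : ℝ) * A ≤ 3 * ((d : ℝ) - 2) * A := mul_le_mul_of_nonneg_right h8 hA0
      have h10 : (0 : ℝ) < (d : ℝ) - 2 := by linarith
      have h11 : ((d : ℝ) - 2) * (Real.log D * M) ≤ ((d : ℝ) - 2) * (3 * A) := by
        linarith
      exact le_of_mul_le_mul_left h11 h10
    refine (hgen X (Subset.refl _)).trans ?_
    rw [← hM, div_le_iff₀ hd0]
    have e : 14 / (d : ℝ) * M * A * d = 14 * M * A := by
      field_simp
    rw [e]
    nlinarith [mul_le_mul_of_nonneg_left h7 hM0, mul_nonneg hM0 hA0]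
  · -- a heavy component
    push Not at hcase
    obtain ⟨x0, hx0, hheavy⟩ := hcase
    set R := univ.filter fun i => w (x0 - ρ i) < D with hRdef
    obtain ⟨i1, hi1⟩ := hfar x0 (hX hx0)
    have hRlt : R.card < d := by
      have h3 : R ⊂ univ := by
        rw [ssubset_univ_iff]
        intro h
        have : i1 ∈ R := by rw [h]; exact mem_univ _
        exact absurd (mem_filter.1 this).2 (not_lt.2 hi1)
      have := card_lt_card h3
      rwa [card_univ, Fintype.card_fin] at this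
    obtain ⟨a, ha⟩ : ∃ a, R.card + a = d := ⟨d - R.card, by omega⟩
    have ha1 : 1 ≤ a := by omega
    have h2a : 2 * a < d := by omega
    set Xh := X.filter fun x => w (x - x0) < D with hXh
    set Xr := X.filter fun x => ¬ w (x - x0) < D with hXr
    have hXhX : Xh ⊆ X := filter_subset _ _
    have hXrX : Xr ⊆ X := filter_subset _ _
    set Mh := ∑ x ∈ Xh, μ x with hMh
    set Mr := ∑ x ∈ Xr, μ x with hMr
    have hMsum : Mh + Mr = M := sum_filter_add_sum_filter_not X _ _
    have hMh0 : 0 ≤ Mh := sum_nonneg fun x hx => hμ x (hXhX hx)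
    have hMr0 : 0 ≤ Mr := sum_nonneg fun x hx => hμ x (hXrX hx)
    have hcross : ∀ x ∈ Xh, ∀ y ∈ Xr, k0 x y = Real.log D := by
      intro x hx y hy
      have hx1 := (mem_filter.1 hx).2
      have hy1 := not_lt.1 (mem_filter.1 hy).2
      have h3 : w (x0 - y) = D := by
        rw [wcomm]
        exact le_antisymm (hdiam y (hX (hXrX hy)) x0 (hX hx0)) hy1
      have h4 : w (x - y) = D := by
        rw [wiso hw (by rw [h3]; exact hx1), h3]
      rw [hk0', h4, max_eq_left]
      have h5 := hRadLe x (hX (hXhX hx))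
      have h6 := hRadLe y (hX (hXrX hy))
      exact max_le (by linarith) (by linarith)
    have hksymm : ∀ x y, k0 x y = k0 y x := fun x y => ker_symm _ _
    have hsplit : ∑ x ∈ X, ∑ y ∈ X, μ x * μ y * k0 x y =
        ∑ x ∈ Xh, ∑ y ∈ Xh, μ x * μ y * k0 x y + ∑ x ∈ Xr, ∑ y ∈ Xr, μ x * μ y * k0 x y +
          2 * Mh * Mr * Real.log D := by
      have e1 : ∀ x, ∑ y ∈ X, μ x * μ y * k0 x y = ∑ y ∈ Xh, μ x * μ y * k0 x y +
          ∑ y ∈ Xr, μ x * μ y * k0 x y := fun x =>
        (sum_filter_add_sum_filter_not X _ _).symm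
      have e2 : ∑ x ∈ X, ∑ y ∈ X, μ x * μ y * k0 x y =
          ∑ x ∈ Xh, ∑ y ∈ X, μ x * μ y * k0 x y + ∑ x ∈ Xr, ∑ y ∈ X, μ x * μ y * k0 x y :=
        (sum_filter_add_sum_filter_not X _ _).symm
      have e3 : ∑ x ∈ Xh, ∑ y ∈ Xr, μ x * μ y * k0 x y = Mh * Mr * Real.log D := by
        rw [hMh, hMr, sum_mul_sum, sum_mul]
        refine sum_congr rfl fun x hx => ?_
        rw [sum_mul]
        exact sum_congr rfl fun y hy => by rw [hcross x hx y hy]
      have e4 : ∑ x ∈ Xr, ∑ y ∈ Xh, μ x * μ y * k0 x y = Mh * Mr * Real.log D := by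
        rw [sum_comm, ← e3]
        refine sum_congr rfl fun x _ => sum_congr rfl fun y _ => ?_
        rw [hksymm]; ring
      rw [e2]
      simp_rw [e1]
      rw [sum_add_distrib, sum_add_distrib, e3, e4]
      ring
    have hEh := heavy_est hw hd hD S hdom hfar x0 (hX hx0) Xh (hXhX.trans hX)
      (fun x hx => (mem_filter.1 hx).2) a ha μ
    have hEr := hgen Xr hXrX
    have hEall := hgen X (Subset.refl _)
    have hnear : ∀ x ∈ Xr, ((d : ℝ) - a - 1) * Real.log D ≤ a * (-Real.log (rad w ρ D x)) := by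
      intro x hx
      have hxS := hX (hXrX hx)
      refine near_est hD (hdom x hxS) a (hRadLe x hxS) ?_
      have hdisj : Disjoint (univ.filter fun i => w (x - ρ i) < D) R := by
        rw [disjoint_left]
        intro i hi hi'
        have h6 := (mem_filter.1 hi).2
        have h7 := (mem_filter.1 hi').2
        have h8 := wsub_le hw x (ρ i) x0
        rw [wcomm (ρ i) x0] at h8
        exact (mem_filter.1 hx).2 (h8.trans_lt (max_lt h6 h7))
      have hc : (univ.filter fun i => w (x - ρ i) < D).card + R.card ≤ d := by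
        rw [← card_union_of_disjoint hdisj]
        exact (card_le_univ _).trans (by rw [Fintype.card_fin])
      omega
    have hAr : Mr * ((d : ℝ) - a - 1) * Real.log D ≤ a * A := by
      have h3 : ∑ x ∈ Xr, μ x * (-Real.log (rad w ρ D x)) ≤ A :=
        sum_le_sum_of_subset_of_nonneg hXrX fun x hx _ => mul_nonneg (hμ x hx) (hlam0 x (hX hx))
      have h4 : Mr * (((d : ℝ) - a - 1) * Real.log D) ≤
          a * ∑ x ∈ Xr, μ x * (-Real.log (rad w ρ D x)) := by
        rw [hMr, sum_mul, mul_sum]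
        refine sum_le_sum fun x hx => ?_
        have := mul_le_mul_of_nonneg_left (hnear x hx) (hμ x (hXrX hx))
        calc μ x * (((d : ℝ) - a - 1) * Real.log D) ≤ μ x * (a * (-Real.log (rad w ρ D x))) := this
          _ = a * (μ x * (-Real.log (rad w ρ D x))) := by ring
      have h5 : (a : ℝ) * ∑ x ∈ Xr, μ x * (-Real.log (rad w ρ D x)) ≤ a * A :=
        mul_le_mul_of_nonneg_left h3 (Nat.cast_nonneg a)
      linarith
    have ha0 : (0 : ℝ) < a := by exact_mod_cast (by omega : 0 < a)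
    have hda : (0 : ℝ) < (d : ℝ) - a := by
      have : (a : ℝ) < d := by exact_mod_cast (by omega : a < d)
      linarith
    set E := ∑ x ∈ X, ∑ y ∈ X, μ x * μ y * k0 x y with hEdef
    have H := arith_est d a hd ha1 h2a Mh Mr (A / Real.log D) (E / Real.log D) hMh0 hMr0
      (by
        rw [hMsum, div_le_iff₀ hL]
        calc E ≤ M ^ 2 * Real.log D / d := hEall
          _ = M ^ 2 / d * Real.log D := by ring)
      (by
        rw [div_le_iff₀ hL, hsplit]
        have e1 : (2 * Mh * Mr + Mr ^ 2 / d - Mh ^ 2 * ((a : ℝ) - 1) / ((d : ℝ) - a)) *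
            Real.log D = Mh ^ 2 * (Real.log D - a * Real.log D) / ((d : ℝ) - a) +
              Mr ^ 2 * Real.log D / d + 2 * Mh * Mr * Real.log D := by
          field_simp
          ring
        rw [e1]
        linarith)
      (by
        rw [le_div_iff₀ hL, div_mul_eq_mul_div, div_le_iff₀ ha0]
        linarith)
    rw [hMsum, div_le_iff₀ hL] at H
    calc E ≤ 14 / d * M * (A / Real.log D) * Real.log D := H
      _ = 14 / d * M * A := by field_simp

end Pool.Agent.TH737.FE
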