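import Pool.Agent.TH737.FE.Glo
import Pool.Agent.TH450.FG.C

/-!
# Potentially good reduction of polynomials at an absolute value
-/

set_option autoImplicit false

namespace Pool.Agent.TH737.FE

open Finset Polynomial Pool.Agent.TH737.HEN

universe u

/-- `f` has potentially good reduction at `V`: for an absolute value `w` on the algebraic closure
extending `V` and an affine coordinate `x = l x' + b` over the algebraic closure, `f` becomes a
polynomial with `w`-integral coefficients whose leading coefficient is a `w`-adic unit. -/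
def PotGood {K : Type u} [Field K] (V : AbsoluteValue K ℝ) (f : K[X]) : Prop :=
  ∃ w : AbsoluteValue (AlgebraicClosure K) ℝ,
    (∀ x : K, w (algebraMap K (AlgebraicClosure K) x) = V x) ∧
    ∃ (g : (AlgebraicClosure K)[X]) (l b : AlgebraicClosure K), l ≠ 0 ∧
      (∀ j, w (g.coeff j) ≤ 1) ∧ w g.leadingCoeff = 1 ∧
      C l * g = (f.map (algebraMap K (AlgebraicClosure K))).comp (C l * X + C b) - C b

/-- The bound at a place of potentially good reduction. -/
lemma potGood_bound {K : Type u} [Field K] (V : AbsoluteValue K ℝ) (hV : IsNonarchimedean V)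
    (F : K[X]) (hd : 2 ≤ F.natDegree) (h : PotGood V F) (S : Finset K)
    (hS : ∀ s ∈ S, F.eval s ∈ S) {s t : K} (hs : s ∈ S) (ht : t ∈ S) :
    V ((s - t) ^ (F.natDegree - 1) * F.leadingCoeff) ≤ 1 := by
  classical
  obtain ⟨w, hw, g, l, b, hl, hg, hlead, hconj⟩ := h
  have hna : IsNonarchimedean w := Pool.Agent.TH450.FG.ext_na hV hw
  set φ := algebraMap K (AlgebraicClosure K) with hφ
  set d := F.natDegree with hddef
  have hmapdeg : (F.map φ).natDegree = d := natDegree_map_eq_of_injective φ.injective F
  have hlindeg : (C l * X + C b : (AlgebraicClosure K)[X]).natDegree = 1 :=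
    natDegree_linear hl
  have hcompdeg : ((F.map φ).comp (C l * X + C b)).natDegree = d := by
    rw [natDegree_comp, hmapdeg, hlindeg, mul_one]
  have hgdeg : g.natDegree = d := by
    have := congrArg natDegree hconj
    rw [natDegree_C_mul hl, natDegree_sub_C, hcompdeg] at this
    exact this
  have hglead : l * g.leadingCoeff = φ F.leadingCoeff * l ^ d := by
    have h1 := congrArg (fun P => coeff P d) hconj
    rw [coeff_C_mul, coeff_sub] at h1
    have h2 : (C b : (AlgebraicClosure K)[X]).coeff d = 0 := by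
      rw [coeff_C, if_neg (by omega)]
    rw [h2, sub_zero] at h1
    have h3 : ((F.map φ).comp (C l * X + C b)).coeff d = φ F.leadingCoeff * l ^ d := by
      have h4 := leadingCoeff_comp (p := F.map φ) (q := C l * X + C b) (by rw [hlindeg]; norm_num)
      rw [leadingCoeff, hcompdeg, hmapdeg, leadingCoeff_linear hl, leadingCoeff_map] at h4
      exact h4
    rw [h3] at h1
    rw [leadingCoeff, hgdeg]
    exact h1
  set S' : Finset (AlgebraicClosure K) := S.image (fun x => (φ x - b) / l) with hS'
  have hclosed : Closed g 0 S' := by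
    intro x hx
    obtain ⟨y, hy, rfl⟩ := mem_image.1 hx
    refine ⟨_, mem_image_of_mem _ (hS y hy), _, mem_image_of_mem _ (hS y hy), ?_⟩
    have h1 := congrArg (fun P => eval ((φ y - b) / l) P) hconj
    simp only [eval_mul, eval_C, eval_sub, eval_comp, eval_add, eval_X] at h1
    have h2 : l * ((φ y - b) / l) + b = φ y := by
      field_simp
      ring
    rw [h2, eval_map_apply] at h1
    rw [zero_mul, add_zero, div_eq_iff hl, mul_comm]
    exact h1.symm
  have hint := closed_integral w hna g 0 (by rw [hgdeg]; exact hd) hg hlead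
    (by rw [map_zero]; exact zero_le_one) S' hclosed
  have h1 : w ((φ s - b) / l - (φ t - b) / l) ≤ 1 := by
    rw [sub_eq_add_neg]
    refine (hna _ _).trans (max_le (hint _ (mem_image_of_mem _ hs)) ?_)
    rw [w.map_neg]
    exact hint _ (mem_image_of_mem _ ht)
  have h2 : (φ s - b) / l - (φ t - b) / l = φ (s - t) / l := by
    rw [map_sub]; ring
  rw [h2, map_div₀] at h1
  have hl0 : 0 < w l := w.pos hl
  rw [div_le_one hl0] at h1
  have h3 : w l = w (φ F.leadingCoeff) * w l ^ d := by
    have := congrArg w hglead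
    rw [map_mul, map_mul, map_pow, hlead, mul_one] at this
    exact this
  have h4 : w (φ F.leadingCoeff) * w l ^ (d - 1) = 1 := by
    have e : w l ^ d = w l * w l ^ (d - 1) := by
      rw [← pow_succ']; congr 1; omega
    rw [e] at h3
    have : w l * (w (φ F.leadingCoeff) * w l ^ (d - 1)) = w l * 1 := by linarith
    exact mul_left_cancel₀ hl0.ne' this
  rw [← hw, map_mul, map_pow, map_mul, map_pow]
  calc w (φ (s - t)) ^ (d - 1) * w (φ F.leadingCoeff)
      ≤ w l ^ (d - 1) * w (φ F.leadingCoeff) := by
        gcongr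
    _ = 1 := by rw [mul_comm]; exact h4

/-- Monic polynomials with integral coefficients. -/
lemma potGood_of_monic {K : Type u} [Field K] (V : AbsoluteValue K ℝ) (hV : IsNonarchimedean V)
    (F : K[X]) (hF : V F.leadingCoeff = 1) (hc : ∀ j, V (F.coeff j) ≤ 1) : PotGood V F := by
  obtain ⟨w, hw⟩ := Pool.Agent.TH450.FG.exists_ext_gen V hV
  have hw' : ∀ x : K, w (algebraMap K (AlgebraicClosure K) x) = V x := fun x => hw x
  refine ⟨w, hw', F.map (algebraMap K (AlgebraicClosure K)), 1, 0, one_ne_zero, ?_, ?_, ?_⟩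
  · intro j
    rw [coeff_map, hw']
    exact hc j
  · rw [leadingCoeff_map, hw', hF]
  · simp

lemma potGood_trivial {K : Type u} [Field K] (V : AbsoluteValue K ℝ) (hV : IsNonarchimedean V)
    (hnt : ¬ V.IsNontrivial) (F : K[X]) (hF : F ≠ 0) : PotGood V F := by
  rw [AbsoluteValue.not_isNontrivial_iff] at hnt
  refine potGood_of_monic V hV F (hnt _ (leadingCoeff_ne_zero.2 hF)) fun j => ?_
  by_cases h : F.coeff j = 0
  · rw [h, map_zero]; exact zero_le_one
  · rw [hnt _ h]

/-- If all differences are constant then the map is isotrivial. -/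
lemma isotriv {k K M : Type*} [Field k] [Field K] [Field M] [Algebra k M] (φ : K →+* M)
    (f : K[X]) (d : ℕ) (hf : f.natDegree = d) (S : Finset K) (hS : ∀ s ∈ S, f.eval s ∈ S)
    (hcard : d < S.card) (α : M) (hα : α ≠ 0)
    (hdiff : ∀ s ∈ S, ∀ t ∈ S, IsAlgebraic k (α * φ (s - t))) :
    ∃ y b : M, y ≠ 0 ∧ ∀ m, IsAlgebraic k
      ((C y⁻¹ * ((f.map φ).comp (C y * X + C b) - C b)).coeff m) := by
  classical
  obtain ⟨s₀, hs₀⟩ := card_pos.1 (by omega : 0 < S.card)
  refine ⟨α⁻¹, φ s₀, inv_ne_zero hα, ?_⟩
  rw [inv_inv]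
  set g := C α * ((f.map φ).comp (C α⁻¹ * X + C (φ s₀)) - C (φ s₀)) with hg
  set A := algebraicClosure k M with hA
  have hval : ∀ s ∈ S, g.eval (α * φ (s - s₀)) = α * φ (f.eval s - s₀) := by
    intro s _
    rw [hg]
    simp only [eval_mul, eval_C, eval_sub, eval_comp, eval_add, eval_X]
    have h1 : α⁻¹ * (α * φ (s - s₀)) + φ s₀ = φ s := by
      rw [inv_mul_cancel_left₀ hα, map_sub]; ring
    rw [h1, eval_map_apply, map_sub]
  -- interpolation over the constants
  let nd : K → A := fun s => if h : s ∈ S then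
    ⟨α * φ (s - s₀), mem_algebraicClosure_iff.2 (hdiff s h s₀ hs₀)⟩ else 0
  let vl : K → A := fun s => if h : s ∈ S then
    ⟨α * φ (f.eval s - s₀), mem_algebraicClosure_iff.2 (hdiff _ (hS s h) s₀ hs₀)⟩ else 0
  have hnd : ∀ s ∈ S, algebraMap A M (nd s) = α * φ (s - s₀) := by
    intro s hs
    show ((nd s : A) : M) = _
    simp only [nd, dif_pos hs]
  have hvl : ∀ s ∈ S, algebraMap A M (vl s) = α * φ (f.eval s - s₀) := by
    intro s hs
    show ((vl s : A) : M) = _
    simp only [vl, dif_pos hs]
  have hinj : Set.InjOn nd (S : Set K) := by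
    intro s hs t ht hst
    have h1 := hnd s hs
    rw [hst, hnd t ht] at h1
    have h2 := mul_left_cancel₀ hα h1
    have h3 := φ.injective h2
    exact (sub_left_injective h3).symm
  set P := Lagrange.interpolate S nd vl with hP
  have hPdeg : P.degree < S.card := Lagrange.degree_interpolate_lt _ hinj
  have hgdeg : g.degree < S.card := by
    have hlin : (C α⁻¹ * X + C (φ s₀) : M[X]).natDegree = 1 := natDegree_linear (inv_ne_zero hα)
    have h1 : g.natDegree ≤ d := by
      rw [hg]
      refine (natDegree_C_mul_le _ _).trans ?_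
      rw [natDegree_sub_C, natDegree_comp, hlin, mul_one]
      exact natDegree_map_le.trans hf.le
    refine lt_of_le_of_lt degree_le_natDegree ?_
    exact_mod_cast lt_of_le_of_lt h1 hcard
  have hPg : P.map (algebraMap A M) = g := by
    have hinj' : Set.InjOn (fun s => α * φ (s - s₀)) (S : Set K) := by
      intro s hs t ht hst
      have h2 := mul_left_cancel₀ hα hst
      exact sub_left_injective (φ.injective h2)
    refine Polynomial.eq_of_degrees_lt_of_eval_index_eq S hinj' ?_ hgdeg ?_
    · exact lt_of_le_of_lt degree_map_le hPdeg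
    · intro s hs
      rw [hval s hs, ← hnd s hs, eval_map_apply, ← hvl s hs]
      congr 1
      exact Lagrange.eval_interpolate_at_node _ hinj hs
  intro m
  rw [← hPg, coeff_map]
  exact mem_algebraicClosure_iff.1 (P.coeff m).2

end Pool.Agent.TH737.FE
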